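import Mathlib.Algebra.CharP.Lemmas
import Mathlib.Algebra.CharP.Algebra
import Mathlib.Data.Int.ConditionallyCompleteOrder
import Mathlib.Data.Nat.Choose.Dvd
import Mathlib.RingTheory.MvPolynomial.IrreducibleQuadratic
import Mathlib.Tactic.Polynomial.Basic

-- ======== part 0: formerly Pool.Agent.MP_16de82_co.h72.Car
section MrgPart0

/-! Abstract algebra of creation and annihilation operators, Koszul type differentials and the
two conjugations used for a change of basis. -/

namespace Pool.Agent.MP_16de82_co.h72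

open Finset

section CAR
variable {A R I : Type*} [CommRing A] [Ring R] [Algebra A R] [DecidableEq I]

structure CAR (x i : I → R) : Prop where
  xx : ∀ a b, a ≠ b → x a * x b = -(x b * x a)
  x2 : ∀ a, x a * x a = 0
  ii : ∀ a b, a ≠ b → i a * i b = -(i b * i a)
  i2 : ∀ a, i a * i a = 0
  ix : ∀ a b, a ≠ b → i a * x b = -(x b * i a)
  ix1 : ∀ a, i a * x a = 1 - x a * i a

def DG (x i : I → R) (T : Finset I) (u w : I → A) : R := ∑ k ∈ T, (u k • x k + w k • i k)

variable {x i : I → R}

theorem DG_insert {T : Finset I} {a : I} (ha : a ∉ T) (u w : I → A) :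
    DG x i (insert a T) u w = (u a • x a + w a • i a) + DG x i T u w := by
  unfold DG; rw [Finset.sum_insert ha]

omit [DecidableEq I] in
theorem DG_congr {T : Finset I} {u w u' w' : I → A} (hu : ∀ k ∈ T, u k = u' k)
    (hw : ∀ k ∈ T, w k = w' k) : DG x i T u w = DG x i T u' w' := by
  unfold DG
  exact Finset.sum_congr rfl fun k hk => by rw [hu k hk, hw k hk]

omit [DecidableEq I] in
theorem DG_sub (T : Finset I) (u w u' w' : I → A) :
    DG x i T u w - DG x i T u' w' = DG x i T (fun k => u k - u' k) (fun k => w k - w' k) := by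
  unfold DG
  rw [← Finset.sum_sub_distrib]
  exact Finset.sum_congr rfl fun k _ => by simp only [sub_smul]; abel

omit [DecidableEq I] in
theorem CAR.x_DG (h : CAR x i) {T : Finset I} {a : I} (ha : a ∉ T) (u w : I → A) :
    x a * DG x i T u w = -(DG x i T u w * x a) := by
  unfold DG
  rw [Finset.mul_sum, Finset.sum_mul, ← Finset.sum_neg_distrib]
  refine Finset.sum_congr rfl fun k hk => ?_
  have hne : k ≠ a := fun e => ha (e ▸ hk)
  simp only [mul_add, add_mul, mul_smul_comm, smul_mul_assoc, h.xx k a hne, h.ix k a hne,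
    smul_neg, neg_add, neg_neg]

omit [DecidableEq I] in
theorem CAR.i_DG (h : CAR x i) {T : Finset I} {a : I} (ha : a ∉ T) (u w : I → A) :
    i a * DG x i T u w = -(DG x i T u w * i a) := by
  unfold DG
  rw [Finset.mul_sum, Finset.sum_mul, ← Finset.sum_neg_distrib]
  refine Finset.sum_congr rfl fun k hk => ?_
  have hne : a ≠ k := fun e => ha (e ▸ hk)
  simp only [mul_add, add_mul, mul_smul_comm, smul_mul_assoc, h.ii a k hne, h.ix a k hne,
    smul_neg, neg_add]

theorem CAR.DG_sq (h : CAR x i) (T : Finset I) (u w : I → A) (hz : ∀ k ∈ T, u k * w k = 0) :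
    DG x i T u w * DG x i T u w = 0 := by
  induction T using Finset.induction_on with
  | empty => simp [DG]
  | insert a T ha ih =>
    rw [DG_insert ha]
    have h1 := ih fun k hk => hz k (Finset.mem_insert_of_mem hk)
    have h2 := hz a (Finset.mem_insert_self _ _)
    have h3 : (u a • x a + w a • i a) * (u a • x a + w a • i a) = 0 := by
      simp only [mul_add, add_mul, mul_smul_comm, smul_mul_assoc, h.x2, h.i2, smul_zero, smul_add,
        smul_smul, h2, mul_comm (w a) (u a), zero_smul, add_zero]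
    have h4 : (u a • x a + w a • i a) * DG x i T u w
        = -(DG x i T u w * (u a • x a + w a • i a)) := by
      simp only [mul_add, add_mul, mul_smul_comm, smul_mul_assoc, h.x_DG ha, h.i_DG ha, smul_neg,
        neg_add]
    rw [add_mul, mul_add _ _ (DG x i T u w), mul_add (DG x i T u w), h1, h3, h4]; abel

omit [DecidableEq I] in
theorem conj_aux {N D E : R} (h1 : N * D - D * N = E) (h2 : N * N = 0) (h3 : E * N = 0) :
    (1 + N) * D * (1 - N) = D + E := by
  have h4 : N * D * N = 0 := by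
    have : N * D = E + D * N := by rw [← h1]; abel
    rw [this, add_mul, h3, mul_assoc, h2]; simp
  rw [← h1]
  simp only [add_mul, mul_sub, one_mul, mul_one, h4]; abel

theorem CAR.conj1 (h : CAR x i) {T : Finset I} {a b : I} (ha : a ∈ T) (hb : b ∈ T) (hab : a ≠ b)
    (l : A) {u w u' w' : I → A} (hu : ∀ k ∈ T, u' k = u k + if k = a then l * u b else 0)
    (hw : ∀ k ∈ T, w' k = w k - if k = b then l * w a else 0) :
    (1 + l • (x a * i b)) * DG x i T u w * (1 - l • (x a * i b)) = DG x i T u' w' := by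
  have c1 : ∀ k, x a * i b * x k - x k * (x a * i b) = if k = b then x a else 0 := by
    intro k
    by_cases hkb : k = b
    · subst hkb
      rw [if_pos rfl, mul_assoc, h.ix1, ← mul_assoc (x k), h.xx k a hab.symm]
      simp only [mul_sub, mul_one, neg_mul, mul_assoc]; abel
    · rw [if_neg hkb, mul_assoc, h.ix b k (Ne.symm hkb), ← mul_assoc (x k)]
      by_cases hka : k = a
      · subst hka; simp [← mul_assoc, h.x2]
      · rw [h.xx k a hka]; simp [mul_assoc]
  have c2 : ∀ k, x a * i b * i k - i k * (x a * i b) = if k = a then - i b else 0 := by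
    intro k
    by_cases hka : k = a
    · subst hka
      rw [if_pos rfl, mul_assoc, h.ii b k hab.symm, ← mul_assoc (i k), h.ix1]
      simp only [sub_mul, one_mul, mul_neg, mul_assoc]; abel
    · rw [if_neg hka, ← mul_assoc (i k), h.ix k a hka]
      by_cases hkb : k = b
      · subst hkb; simp [mul_assoc, h.i2]
      · rw [mul_assoc, h.ii b k (Ne.symm hkb)]; simp [mul_assoc]
  have e1 : l • (x a * i b) * DG x i T u w - DG x i T u w * l • (x a * i b)
      = (l * u b) • x a - (l * w a) • i b := by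
    have : l • (x a * i b) * DG x i T u w - DG x i T u w * l • (x a * i b)
        = ∑ k ∈ T, ((if k = b then (l * u k) • x a else 0)
          - (if k = a then (l * w k) • i b else 0)) := by
      unfold DG
      rw [Finset.mul_sum, Finset.sum_mul, ← Finset.sum_sub_distrib]
      refine Finset.sum_congr rfl fun k _ => ?_
      have : l • (x a * i b) * (u k • x k + w k • i k) - (u k • x k + w k • i k) * l • (x a * i b)
          = (l * u k) • (x a * i b * x k - x k * (x a * i b))
            + (l * w k) • (x a * i b * i k - i k * (x a * i b)) := by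
        simp only [mul_add, add_mul, mul_smul_comm, smul_mul_assoc, smul_smul, smul_sub,
          smul_add, mul_comm l]
        abel
      rw [this, c1, c2]
      split_ifs <;> simp [sub_eq_add_neg]
    rw [this, Finset.sum_sub_distrib, Finset.sum_ite_eq' T b, Finset.sum_ite_eq' T a,
      if_pos ha, if_pos hb]
  have n2 : x a * i b * (x a * i b) = 0 := by
    rw [mul_assoc, ← mul_assoc (i b), h.ix b a hab.symm]; simp [← mul_assoc, h.x2]
  rw [conj_aux e1 (by simp [n2])]
  · have : DG x i T u' w' - DG x i T u w = (l * u b) • x a - (l * w a) • i b := by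
      rw [DG_sub]
      unfold DG
      have : ∀ k ∈ T, (u' k - u k) • x k + (w' k - w k) • i k
          = (if k = a then (l * u b) • x a else 0) - (if k = b then (l * w a) • i b else 0) := by
        intro k hk
        rw [hu k hk, hw k hk]
        split_ifs with h1 h2 h2
        · exact absurd (h1.symm.trans h2) hab
        · simp [h1]
        · simp [h2]
        · simp
      rw [Finset.sum_congr rfl this, Finset.sum_sub_distrib, Finset.sum_ite_eq' T b,
        Finset.sum_ite_eq' T a, if_pos ha, if_pos hb]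
    rw [← this]; abel
  · have q1 : x a * (x a * i b) = 0 := by rw [← mul_assoc, h.x2, zero_mul]
    have q2 : i b * (x a * i b) = 0 := by
      rw [← mul_assoc, h.ix b a hab.symm]; simp [mul_assoc, h.i2]
    simp [sub_mul, q1, q2]

theorem CAR.conj2 (h : CAR x i) {T : Finset I} {a b : I} (ha : a ∈ T) (hb : b ∈ T) (hab : a ≠ b)
    (c : A) {u w w' : I → A}
    (hw : ∀ k ∈ T, w' k = w k + (if k = a then c * u b else 0) - if k = b then c * u a else 0) :
    (1 + c • (i a * i b)) * DG x i T u w * (1 - c • (i a * i b)) = DG x i T u w' := by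
  have c1 : ∀ k, i a * i b * x k - x k * (i a * i b)
      = (if k = b then i a else 0) - if k = a then i b else 0 := by
    intro k
    by_cases hkb : k = b
    · subst hkb
      have : x k * i a = -(i a * x k) := by rw [h.ix a k hab]; simp
      rw [if_pos rfl, if_neg hab.symm, mul_assoc, h.ix1, ← mul_assoc (x k), this]
      simp only [mul_sub, mul_one, neg_mul, mul_assoc]; abel
    · rw [if_neg hkb, mul_assoc, h.ix b k (Ne.symm hkb), mul_neg, ← mul_assoc (i a)]
      by_cases hka : k = a
      · subst hka; rw [h.ix1]; simp [sub_mul, mul_assoc]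
      · rw [h.ix a k (Ne.symm hka)]; simp [mul_assoc, hka]
  have c2 : ∀ k, i a * i b * i k - i k * (i a * i b) = 0 := by
    intro k
    by_cases hka : k = a
    · subst hka
      rw [mul_assoc, h.ii b k hab.symm]; simp [← mul_assoc, h.i2]
    · rw [← mul_assoc (i k), h.ii k a hka]
      by_cases hkb : k = b
      · subst hkb; simp [mul_assoc, h.i2]
      · rw [mul_assoc, h.ii b k (Ne.symm hkb)]; simp [mul_assoc]
  have e1 : c • (i a * i b) * DG x i T u w - DG x i T u w * c • (i a * i b)
      = (c * u b) • i a - (c * u a) • i b := by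
    have : c • (i a * i b) * DG x i T u w - DG x i T u w * c • (i a * i b)
        = ∑ k ∈ T, ((if k = b then (c * u k) • i a else 0)
          - (if k = a then (c * u k) • i b else 0)) := by
      unfold DG
      rw [Finset.mul_sum, Finset.sum_mul, ← Finset.sum_sub_distrib]
      refine Finset.sum_congr rfl fun k _ => ?_
      have : c • (i a * i b) * (u k • x k + w k • i k) - (u k • x k + w k • i k) * c • (i a * i b)
          = (c * u k) • (i a * i b * x k - x k * (i a * i b))
            + (c * w k) • (i a * i b * i k - i k * (i a * i b)) := by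
        simp only [mul_add, add_mul, mul_smul_comm, smul_mul_assoc, smul_smul, smul_sub,
          smul_add, mul_comm c]
        abel
      rw [this, c1, c2]
      split_ifs <;> simp [sub_eq_add_neg]
    rw [this, Finset.sum_sub_distrib, Finset.sum_ite_eq' T b, Finset.sum_ite_eq' T a,
      if_pos ha, if_pos hb]
  have q1 : i a * (i a * i b) = 0 := by rw [← mul_assoc, h.i2, zero_mul]
  have q2 : i b * (i a * i b) = 0 := by
    rw [← mul_assoc, h.ii b a hab.symm]; simp [mul_assoc, h.i2]
  have n2 : i a * i b * (i a * i b) = 0 := by rw [mul_assoc, q2, mul_zero]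
  rw [conj_aux e1 (by simp [n2])]
  · have : DG x i T u w' - DG x i T u w = (c * u b) • i a - (c * u a) • i b := by
      rw [DG_sub]
      unfold DG
      have : ∀ k ∈ T, (u k - u k) • x k + (w' k - w k) • i k
          = (if k = a then (c * u b) • i a else 0) - (if k = b then (c * u a) • i b else 0) := by
        intro k hk
        rw [hw k hk]
        split_ifs with h1 h2 h2
        · exact absurd (h1.symm.trans h2) hab
        · simp [h1]
        · simp [h2]
        · simp
      rw [Finset.sum_congr rfl this, Finset.sum_sub_distrib, Finset.sum_ite_eq' T b,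
        Finset.sum_ite_eq' T a, if_pos ha, if_pos hb]
    rw [← this]; abel
  · simp [sub_mul, q1, q2]

end CAR

section CharP
variable {A : Type*} [CommRing A] (p : ℕ) [hp : Fact p.Prime]

theorem choose_pred_cast [CharP A p] (m : ℕ) (hm : m ≤ p - 1) :
    (((p - 1).choose m : ℕ) : A) = (-1) ^ m := by
  induction m with
  | zero => simp
  | succ m ih =>
    have hp1 := hp.out.one_lt
    have h1 : p.choose (m + 1) = (p - 1).choose m + (p - 1).choose (m + 1) := by
      obtain ⟨q, rfl⟩ : ∃ q, p = q + 1 := ⟨p - 1, by omega⟩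
      simp [Nat.choose_succ_succ]
    have h2 : ((p.choose (m + 1) : ℕ) : A) = 0 :=
      (CharP.cast_eq_zero_iff A p _).2 (hp.out.dvd_choose_self (by omega) (by omega))
    rw [h1, Nat.cast_add, ih (by omega)] at h2
    rw [pow_succ]; linear_combination h2

/-- the homotopy polynomial of a transvection -/
def gg (x y : A) : A := ∑ m ∈ range (p - 1), x ^ m * (-y) ^ (p - 1 - 1 - m)

theorem neg_one_pow_pred [CharP A p] : (-1 : A) ^ (p - 1) = 1 := by
  have := choose_pred_cast (A := A) p (p - 1) le_rfl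
  simpa using this.symm

theorem gg_mul [CharP A p] (x y : A) : gg p x y * (x + y) = x ^ (p - 1) - y ^ (p - 1) := by
  have := geom_sum₂_mul x (-y) (p - 1)
  rw [sub_neg_eq_add, neg_pow y, neg_one_pow_pred p, one_mul] at this
  exact this

theorem add_pow_pred [CharP A p] (x y : A) :
    (x + y) ^ (p - 1) = x ^ (p - 1) - y * gg p x y := by
  have hp1 := hp.out.one_lt
  rw [add_pow, Finset.sum_range_succ, gg, Finset.mul_sum]
  simp only [Nat.sub_self, pow_zero, mul_one, Nat.choose_self, Nat.cast_one]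
  rw [sub_eq_add_neg, ← Finset.sum_neg_distrib, add_comm]
  congr 1
  refine Finset.sum_congr rfl fun m hm => ?_
  have hm' := Finset.mem_range.1 hm
  rw [choose_pred_cast p m hm'.le]
  obtain ⟨r, hr⟩ : ∃ r, p - 1 - m = r + 1 := ⟨p - 1 - 1 - m, by omega⟩
  have hr' : p - 1 - 1 - m = r := by omega
  have h1 : (-1 : A) ^ (m + r + 1) = 1 := by
    rw [show m + r + 1 = p - 1 by omega]; exact neg_one_pow_pred p
  have h2 : (-1 : A) ^ r * (-1) ^ r = 1 := by rw [← mul_pow]; simp
  have h3 : (-1 : A) ^ m = -(-1) ^ r := by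
    rw [pow_succ, pow_add] at h1
    linear_combination (-(-1 : A) ^ r) * h1 - (-1 : A) ^ m * h2
  rw [hr, hr', neg_pow y, h3]; ring

end CharP

end Pool.Agent.MP_16de82_co.h72

end MrgPart0

-- ======== part 1: formerly Pool.Agent.MP_16de82_co.h72.Ops
section MrgPart1

/-! The module of functions on finite sets with its raising and lowering operators. -/

namespace Pool.Agent.MP_16de82_co.h72

open Finset MvPolynomial

noncomputable section

variable (K : Type*) [Field K] (ι E : Type*) [LinearOrder ι] [DecidableEq E]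

def XX : Type _ := Finset (ι ⊕ E) → MvPolynomial ι K

instance : AddCommGroup (XX K ι E) := inferInstanceAs (AddCommGroup (Finset (ι ⊕ E) → _))
instance : Module (MvPolynomial ι K) (XX K ι E) :=
  inferInstanceAs (Module (MvPolynomial ι K) (Finset (ι ⊕ E) → MvPolynomial ι K))

variable {K ι E}

omit [LinearOrder ι] [DecidableEq E] in
theorem XX.ext {z z' : XX K ι E} (h : ∀ A, z A = z' A) : z = z' := funext h
omit [LinearOrder ι] [DecidableEq E] in
@[simp] theorem XX.add_apply (z z' : XX K ι E) (A) : (z + z') A = z A + z' A := rfl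
omit [LinearOrder ι] [DecidableEq E] in
@[simp] theorem XX.sub_apply (z z' : XX K ι E) (A) : (z - z') A = z A - z' A := rfl
omit [LinearOrder ι] [DecidableEq E] in
@[simp] theorem XX.neg_apply (z : XX K ι E) (A) : (-z) A = -z A := rfl
omit [LinearOrder ι] [DecidableEq E] in
@[simp] theorem XX.zero_apply (A) : (0 : XX K ι E) A = 0 := rfl
omit [LinearOrder ι] [DecidableEq E] in
@[simp] theorem XX.smul_apply (f : MvPolynomial ι K) (z : XX K ι E) (A) :
    (f • z) A = f * z A := rfl
omit [LinearOrder ι] [DecidableEq E] in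
@[simp] theorem XX.zsmul_apply (f : ℤ) (z : XX K ι E) (A) : (f • z) A = f • z A := rfl

def cs : ι ⊕ E → ι ⊕ E → ℤ
  | .inl k, .inl j => if k < j then -1 else 1
  | _, _ => 1

omit [DecidableEq E] in
theorem cs_sq (k j : ι ⊕ E) : cs k j * cs k j = 1 := by
  rcases k with k | k <;> rcases j with j | j <;> simp [cs]
  split_ifs <;> simp

omit [DecidableEq E] in
theorem cs_self (k : ι ⊕ E) : cs k k = 1 := by
  rcases k with k | k <;> simp [cs]

omit [DecidableEq E] in
theorem cs_ll {k j : ι} (h : k ≠ j) : cs (E := E) (.inl k) (.inl j) * cs (E := E) (.inl j) (.inl k) = -1 := by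
  rcases lt_or_gt_of_ne h with h | h
  · simp [cs, h, h.not_gt]
  · simp [cs, h, h.not_gt]

omit [DecidableEq E] in
theorem cs_r (k : ι ⊕ E) (j : E) : cs k (.inr j) * cs (.inr j) k = 1 := by
  rcases k with k | k <;> simp [cs]

def sg (j : ι ⊕ E) (A : Finset (ι ⊕ E)) : ℤ := ∏ k ∈ A, cs k j

omit [DecidableEq E] in
theorem sg_sq (j : ι ⊕ E) (A : Finset (ι ⊕ E)) : sg j A * sg j A = 1 := by
  unfold sg; rw [← Finset.prod_mul_distrib]; exact Finset.prod_eq_one fun k _ => cs_sq k j

theorem sg_insert (j : ι ⊕ E) {k : ι ⊕ E} {A : Finset (ι ⊕ E)} (h : k ∉ A) :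
    sg j (insert k A) = cs k j * sg j A := Finset.prod_insert h

theorem sg_erase (j : ι ⊕ E) {k : ι ⊕ E} {A : Finset (ι ⊕ E)} (h : k ∈ A) :
    sg j (A.erase k) = cs k j * sg j A := by
  have := sg_insert j (Finset.notMem_erase k A)
  rw [Finset.insert_erase h] at this
  rw [this, ← mul_assoc, cs_sq, one_mul]

def up (j : ι ⊕ E) : Module.End (MvPolynomial ι K) (XX K ι E) where
  toFun z := fun A => if j ∈ A then sg j A • z (A.erase j) else 0
  map_add' z z' := XX.ext fun A => by by_cases h : j ∈ A <;> simp [h]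
  map_smul' f z := XX.ext fun A => by by_cases h : j ∈ A <;> simp [h, mul_left_comm]

def dn (j : ι ⊕ E) : Module.End (MvPolynomial ι K) (XX K ι E) where
  toFun z := fun A => if j ∈ A then 0 else sg j A • z (insert j A)
  map_add' z z' := XX.ext fun A => by by_cases h : j ∈ A <;> simp [h]
  map_smul' f z := XX.ext fun A => by by_cases h : j ∈ A <;> simp [h, mul_left_comm]

theorem up_apply (j : ι ⊕ E) (z : XX K ι E) (A) :
    up j z A = if j ∈ A then sg j A • z (A.erase j) else 0 := rfl

theorem dn_apply (j : ι ⊕ E) (z : XX K ι E) (A) :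
    dn j z A = if j ∈ A then 0 else sg j A • z (insert j A) := rfl

theorem up_up_self (j : ι ⊕ E) (z : XX K ι E) : up j (up j z) = 0 :=
  XX.ext fun A => by simp [up_apply]

theorem dn_dn_self (j : ι ⊕ E) (z : XX K ι E) : dn j (dn j z) = 0 :=
  XX.ext fun A => by simp [dn_apply]

theorem dn_up_self (j : ι ⊕ E) (z : XX K ι E) : dn j (up j z) = z - up j (dn j z) :=
  XX.ext fun A => by
    by_cases h : j ∈ A
    · simp only [dn_apply, up_apply, XX.sub_apply, h, if_true, Finset.notMem_erase, if_false,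
        Finset.insert_erase h, sg_erase j h, cs_self, one_mul, smul_smul, sg_sq, one_smul,
        sub_self]
    · simp only [dn_apply, up_apply, XX.sub_apply, h, if_false, Finset.mem_insert_self, if_true,
        Finset.erase_insert h, sg_insert j h, cs_self, one_mul, smul_smul, sg_sq, one_smul,
        sub_zero]

theorem up_up {j k : ι ⊕ E} (h : j ≠ k) (z : XX K ι E) :
    up j (up k z) = (cs j k * cs k j) • up k (up j z) :=
  XX.ext fun A => by
    by_cases hj : j ∈ A <;> by_cases hk : k ∈ A <;>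
      simp only [up_apply, XX.zsmul_apply, Finset.mem_erase, hj, hk, ne_eq, h, h.symm,
        not_false_eq_true, and_self, and_false, if_true, if_false, smul_zero, smul_smul]
    rw [sg_erase k hj, sg_erase j hk, Finset.erase_right_comm]
    congr 1
    linear_combination (-(cs j k * sg k A * sg j A)) * cs_sq k j

theorem dn_dn {j k : ι ⊕ E} (h : j ≠ k) (z : XX K ι E) :
    dn j (dn k z) = (cs j k * cs k j) • dn k (dn j z) :=
  XX.ext fun A => by
    by_cases hj : j ∈ A <;> by_cases hk : k ∈ A <;>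
      simp only [dn_apply, XX.zsmul_apply, Finset.mem_insert, hj, hk, h, h.symm,
        or_self, or_true, if_true, if_false, smul_zero, smul_smul]
    rw [sg_insert k hj, sg_insert j hk, Finset.insert_comm]
    congr 1
    linear_combination (-(cs j k * sg k A * sg j A)) * cs_sq k j

theorem dn_up {j k : ι ⊕ E} (h : j ≠ k) (z : XX K ι E) :
    dn j (up k z) = (cs j k * cs k j) • up k (dn j z) :=
  XX.ext fun A => by
    by_cases hj : j ∈ A <;> by_cases hk : k ∈ A <;>
      simp only [dn_apply, up_apply, XX.zsmul_apply, Finset.mem_insert, Finset.mem_erase, hj, hk,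
        ne_eq, h, h.symm, not_false_eq_true, and_self, and_false,
        or_self, or_true, if_true, if_false, smul_zero, smul_smul]
    rw [sg_insert k hj, sg_erase j hk, Finset.erase_insert_of_ne h]
    congr 1
    linear_combination (-(cs j k * sg k A * sg j A)) * cs_sq k j

theorem comm_up (k : ι ⊕ E) (j : E) :
    Commute (up (.inr j)) (up k : Module.End (MvPolynomial ι K) (XX K ι E)) := by
  by_cases h : k = .inr j
  · subst h; exact Commute.refl _
  · refine LinearMap.ext fun z => ?_
    simp only [Module.End.mul_apply]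
    rw [up_up h, cs_r, one_smul]

theorem comm_dn {k : ι ⊕ E} {j : E} (h : k ≠ .inr j) :
    Commute (up (.inr j)) (dn k : Module.End (MvPolynomial ι K) (XX K ι E)) := by
  refine LinearMap.ext fun z => ?_
  simp only [Module.End.mul_apply]
  rw [dn_up h, cs_r, one_smul]

variable (K ι E) in
def AS : Subalgebra (MvPolynomial ι K) (Module.End (MvPolynomial ι K) (XX K ι E)) :=
  Algebra.adjoin _ (Set.range fun j : E => up (.inr j))

variable (K ι E) in
def AA : Type _ := AS K ι E

instance : CommRing (AA K ι E) :=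
  { (inferInstanceAs (Ring (AS K ι E)) : Ring (AA K ι E)) with
    mul_comm := fun a b =>
      (Algebra.isMulCommutative_adjoin (MvPolynomial ι K) (s := Set.range fun j : E =>
        (up (.inr j) : Module.End (MvPolynomial ι K) (XX K ι E))) (by
          rintro _ ⟨j, rfl⟩ _ ⟨k, rfl⟩; exact comm_up _ _)).is_comm.comm a b }

instance : Algebra (MvPolynomial ι K) (AA K ι E) :=
  inferInstanceAs (Algebra (MvPolynomial ι K) (AS K ι E))

instance : Module (AA K ι E) (XX K ι E) := inferInstanceAs (Module (AS K ι E) (XX K ι E))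

theorem AA.smul_def (a : AA K ι E) (z : XX K ι E) :
    a • z = (Subtype.val a : Module.End (MvPolynomial ι K) (XX K ι E)) z := rfl

theorem AA.ext {a b : AA K ι E} (h : ∀ z : XX K ι E, a • z = b • z) : a = b :=
  Subtype.ext (LinearMap.ext h)

/-- constants of the polynomial ring inside the commutative operator ring -/
def tt : MvPolynomial ι K →+* AA K ι E := algebraMap _ _

theorem tt_smul (f : MvPolynomial ι K) (z : XX K ι E) : (tt f : AA K ι E) • z = f • z := rfl

def yy (j : E) : AA K ι E := ⟨up (.inr j), Algebra.subset_adjoin ⟨j, rfl⟩⟩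

theorem yy_smul (j : E) (z : XX K ι E) : (yy j : AA K ι E) • z = up (.inr j) z := rfl

theorem yy_sq (j : E) : (yy j : AA K ι E) * yy j = 0 :=
  AA.ext fun z => by rw [mul_smul, yy_smul, yy_smul, up_up_self, zero_smul]

theorem tt_injective : Function.Injective (tt : MvPolynomial ι K → AA K ι E) := by
  intro f g h
  have := congrArg (fun a : AA K ι E => (a • (show XX K ι E from fun _ => 1)) ∅) h
  simpa [tt_smul] using this

instance (p : ℕ) [CharP K p] : CharP (AA K ι E) p :=
  charP_of_injective_ringHom (f := (tt : MvPolynomial ι K →+* AA K ι E).comp C)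
    (tt_injective.comp (C_injective ι K)) p

def lin (f : Module.End (MvPolynomial ι K) (XX K ι E)) (h : ∀ j, Commute (up (.inr j)) f) :
    Module.End (AA K ι E) (XX K ι E) where
  toFun := f
  map_add' := f.map_add
  map_smul' a z := by
    have : Commute f (Subtype.val a) :=
      Algebra.commute_of_mem_adjoin_of_forall_mem_commute a.2
        (by rintro _ ⟨j, rfl⟩; exact (h j).symm)
    exact LinearMap.congr_fun this.eq z

def xi (i : ι) : Module.End (AA K ι E) (XX K ι E) := lin (up (.inl i)) fun _ => comm_up _ _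

def io (i : ι) : Module.End (AA K ι E) (XX K ι E) :=
  lin (dn (.inl i)) fun _ => comm_dn (by simp)

theorem xi_apply (i : ι) (z : XX K ι E) : xi i z = up (.inl i) z := rfl
theorem io_apply (i : ι) (z : XX K ι E) : io i z = dn (.inl i) z := rfl

theorem car : CAR (xi : ι → Module.End (AA K ι E) (XX K ι E)) io where
  xx a b h := LinearMap.ext fun z => by
    simp only [Module.End.mul_apply, LinearMap.neg_apply, xi_apply]
    rw [up_up (by simpa using h), cs_ll h, neg_one_smul]
  x2 a := LinearMap.ext fun z => up_up_self _ _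
  ii a b h := LinearMap.ext fun z => by
    simp only [Module.End.mul_apply, LinearMap.neg_apply, io_apply]
    rw [dn_dn (by simpa using h), cs_ll h, neg_one_smul]
  i2 a := LinearMap.ext fun z => dn_dn_self _ _
  ix a b h := LinearMap.ext fun z => by
    simp only [Module.End.mul_apply, LinearMap.neg_apply, io_apply, xi_apply]
    rw [dn_up (by simpa using h), cs_ll h, neg_one_smul]
  ix1 a := LinearMap.ext fun z => dn_up_self _ _

/-- the linear form of row `i` on the columns `W` -/
def lf (c : E → K) (W : Finset E) : AA K ι E := ∑ j ∈ W, tt (C (c j)) * yy j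

theorem lf_pow (p : ℕ) [hp : Fact p.Prime] [CharP K p] (c : E → K) (W : Finset E) :
    (lf c W : AA K ι E) ^ p = 0 := by
  unfold lf
  rw [sum_pow_char]
  refine Finset.sum_eq_zero fun j _ => ?_
  obtain ⟨q, hq⟩ : ∃ q, p = q + 2 := ⟨p - 2, by have := hp.out.two_le; omega⟩
  rw [mul_pow, hq, pow_add (yy j), sq, yy_sq]; simp

/-- the differential -/
def DD (p : ℕ) (T : Finset ι) (u : ι → AA K ι E) (τ : ι → MvPolynomial ι K) :
    Module.End (AA K ι E) (XX K ι E) :=
  DG xi io T u fun i => tt (τ i) * u i ^ (p - 1)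

theorem DD_sq {p : ℕ} (hp : 1 ≤ p) (T : Finset ι) (u : ι → AA K ι E) (τ : ι → MvPolynomial ι K)
    (hu : ∀ i ∈ T, u i ^ p = 0) (z : XX K ι E) : DD p T u τ (DD p T u τ z) = 0 := by
  have := (car (K := K) (ι := ι) (E := E)).DG_sq T u (fun i => tt (τ i) * u i ^ (p - 1)) fun k hk => by
    rw [mul_left_comm, ← pow_succ', Nat.sub_add_cancel hp, hu k hk, mul_zero]
  exact LinearMap.congr_fun this z

theorem DG_apply (T : Finset ι) (u w : ι → AA K ι E) (z : XX K ι E) :
    DG xi io T u w z = ∑ k ∈ T, (u k • xi k z + w k • io k z) := by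
  simp [DG, LinearMap.sum_apply]

/-- `φ` commutes with the action of `a` -/
def Cm (φ : XX K ι E →+ XX K ι E) (a : AA K ι E) : Prop := ∀ z, φ (a • z) = a • φ z

theorem Cm.mul {φ : XX K ι E →+ XX K ι E} {a b : AA K ι E} (ha : Cm φ a) (hb : Cm φ b) :
    Cm φ (a * b) := fun z => by rw [mul_smul, mul_smul, ha, hb]

theorem Cm.pow {φ : XX K ι E →+ XX K ι E} {a : AA K ι E} (ha : Cm φ a) (n : ℕ) :
    Cm φ (a ^ n) := by
  induction n with
  | zero => intro z; simp
  | succ n ih => rw [pow_succ]; exact ih.mul ha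

theorem Cm.lf {φ : XX K ι E →+ XX K ι E} (c : E → K) (W : Finset E)
    (hc : ∀ x : K, Cm φ (tt (C x))) (hy : ∀ j ∈ W, Cm φ (yy j)) : Cm φ (lf c W) := fun z => by
  unfold h72.lf
  rw [Finset.sum_smul, Finset.sum_smul, map_sum]
  exact Finset.sum_congr rfl fun j hj => (hc _).mul (hy j hj) z

theorem DD_semi (p : ℕ) (φ : XX K ι E →+ XX K ι E) (T : Finset ι) (u : ι → AA K ι E)
    (τ τ' : ι → MvPolynomial ι K) (hu : ∀ i ∈ T, Cm φ (u i))
    (ht : ∀ i ∈ T, ∀ z, φ (τ i • z) = τ' i • φ z)
    (hx : ∀ i z, φ (xi i z) = xi i (φ z)) (hi : ∀ i z, φ (io i z) = io i (φ z))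
    (z : XX K ι E) : φ (DD p T u τ z) = DD p T u τ' (φ z) := by
  unfold DD
  rw [DG_apply, DG_apply, map_sum]
  refine Finset.sum_congr rfl fun k hk => ?_
  rw [map_add, hu k hk, hx, mul_smul, mul_smul, tt_smul, tt_smul, ht k hk, (hu k hk).pow, hi]

/-- lowering operator of a column -/
def et (j : E) : XX K ι E →+ XX K ι E := (dn (.inr j)).toAddMonoidHom

theorem et_apply (j : E) (z : XX K ι E) : et j z = dn (.inr j) z := rfl

theorem et_tt (j : E) (f : MvPolynomial ι K) : Cm (et j) (tt f : AA K ι E) :=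
  fun z => (dn (.inr j)).map_smul f z

theorem et_yy {j k : E} (h : k ≠ j) : Cm (et j) (yy k : AA K ι E) := fun z =>
  (LinearMap.congr_fun (comm_dn (k := .inr j) (j := k) (by simpa using h.symm)).eq z).symm

theorem et_xi (j : E) (i : ι) (z : XX K ι E) : et j (xi i z) = xi i (et j z) := by
  rw [et_apply, xi_apply, dn_up (by simp), mul_comm, cs_r, one_smul]; rfl

theorem et_io (j : E) (i : ι) (z : XX K ι E) : et j (io i z) = io i (et j z) := by
  rw [et_apply, io_apply, dn_dn (by simp), mul_comm, cs_r, one_smul]; rfl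

theorem et_et (j : E) (z : XX K ι E) : et j (et j z) = 0 := dn_dn_self _ _

theorem et_yy_self (j : E) (z : XX K ι E) :
    et j ((yy j : AA K ι E) • z) = z - (yy j : AA K ι E) • et j z := dn_up_self _ _

/-- coefficientwise action of a ring endomorphism -/
def smap (σ : MvPolynomial ι K →ₐ[K] MvPolynomial ι K) : XX K ι E →+ XX K ι E where
  toFun z := fun A => σ (z A)
  map_zero' := XX.ext fun A => by simp
  map_add' z z' := XX.ext fun A => by simp

omit [LinearOrder ι] [DecidableEq E] in
theorem smap_apply (σ : MvPolynomial ι K →ₐ[K] MvPolynomial ι K) (z : XX K ι E) (A) :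
    smap σ z A = σ (z A) := rfl

omit [LinearOrder ι] [DecidableEq E] in
theorem smap_smul (σ : MvPolynomial ι K →ₐ[K] MvPolynomial ι K) (f : MvPolynomial ι K)
    (z : XX K ι E) : smap σ (f • z) = σ f • smap σ z :=
  XX.ext fun A => by simp [smap_apply]

theorem smap_up (σ : MvPolynomial ι K →ₐ[K] MvPolynomial ι K) (j : ι ⊕ E) (z : XX K ι E) :
    smap σ (up j z) = up j (smap σ z) :=
  XX.ext fun A => by by_cases h : j ∈ A <;> simp [smap_apply, up_apply, h]

theorem smap_dn (σ : MvPolynomial ι K →ₐ[K] MvPolynomial ι K) (j : ι ⊕ E) (z : XX K ι E) :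
    smap σ (dn j z) = dn j (smap σ z) :=
  XX.ext fun A => by by_cases h : j ∈ A <;> simp [smap_apply, dn_apply, h]

theorem smap_lf (σ : MvPolynomial ι K →ₐ[K] MvPolynomial ι K) (c : E → K) (W : Finset E) :
    Cm (smap σ) (lf c W : AA K ι E) :=
  Cm.lf c W (fun x z => by rw [tt_smul, tt_smul, smap_smul, algHom_C]; rfl)
    fun j _ z => smap_up σ _ z

theorem smap_DD (p : ℕ) (σ : MvPolynomial ι K →ₐ[K] MvPolynomial ι K) (T : Finset ι)
    (a : ι → E → K) (W : Finset E) (τ : ι → MvPolynomial ι K) (z : XX K ι E) :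
    smap σ (DD p T (fun i => lf (a i) W) τ z)
      = DD p T (fun i => lf (a i) W) (fun i => σ (τ i)) (smap σ z) :=
  DD_semi p _ T _ τ _ (fun _ _ => smap_lf σ _ W) (fun _ _ z => smap_smul σ _ z)
    (fun _ z => smap_up σ _ z) (fun _ z => smap_dn σ _ z) z

end

end Pool.Agent.MP_16de82_co.h72

end MrgPart1

-- ======== part 2: formerly Pool.Agent.MP_16de82_co.h72.Grade
section MrgPart2

/-! Gradings by integer weights, projections and shifts of operators. -/

namespace Pool.Agent.MP_16de82_co.h72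

open Finset MvPolynomial

noncomputable section

structure Wt (ι E : Type*) where
  t : ι → ℤ
  v : ι ⊕ E → ℤ

variable {K : Type*} [Field K] {ι E : Type*}

def Wt.wt (w : Wt ι E) (d : ι →₀ ℕ) (A : Finset (ι ⊕ E)) : ℤ :=
  Finsupp.weight w.t d + ∑ k ∈ A, w.v k

def Supp (w : Wt ι E) (Q : ℤ → Prop) (z : XX K ι E) : Prop :=
  ∀ A d, coeff d (z A) ≠ 0 → Q (w.wt d A)

abbrev Hm (w : Wt ι E) (k : ℤ) (z : XX K ι E) : Prop := Supp w (fun q => q = k) z

abbrev Ge (w : Wt ι E) (k : ℤ) (z : XX K ι E) : Prop := Supp w (fun q => k ≤ q) z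

variable {w w' : Wt ι E} {Q Q' Δ Δ' Δ'' : ℤ → Prop} {z z' : XX K ι E}

theorem Supp.mono (h : Supp w Q z) (hq : ∀ q, Q q → Q' q) : Supp w Q' z :=
  fun A d hd => hq _ (h A d hd)

theorem Supp.and (h : Supp w Q z) (h' : Supp w Q' z) : Supp w (fun q => Q q ∧ Q' q) z :=
  fun A d hd => ⟨h A d hd, h' A d hd⟩

theorem Supp.zero : Supp w Q (0 : XX K ι E) := fun A d hd => by simp at hd

theorem Supp.add (h : Supp w Q z) (h' : Supp w Q z') : Supp w Q (z + z') := fun A d hd => by
  by_cases h1 : coeff d (z A) = 0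
  · apply h' A d
    intro h2
    simp [h1, h2] at hd
  · exact h A d h1

theorem Supp.neg (h : Supp w Q z) : Supp w Q (-z) := fun A d hd => h A d (by simpa using hd)

theorem Supp.sub (h : Supp w Q z) (h' : Supp w Q z') : Supp w Q (z - z') := by
  rw [sub_eq_add_neg]; exact h.add h'.neg

theorem Supp.sum {I : Type*} (s : Finset I) (f : I → XX K ι E) (h : ∀ i ∈ s, Supp w Q (f i)) :
    Supp w Q (∑ i ∈ s, f i) :=
  Finset.sum_induction f (Supp w Q) (fun _ _ => Supp.add) Supp.zero h

theorem Supp.eq_zero (h : Supp w (fun _ => False) z) : z = 0 :=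
  XX.ext fun A => MvPolynomial.ext _ _ fun d => by
    by_contra hd
    exact h A d (by simpa using hd)

theorem ge_zero (ht : ∀ i, 0 ≤ w.t i) (hv : ∀ k, 0 ≤ w.v k) (z : XX K ι E) : Ge w 0 z := by
  intro A d _
  refine add_nonneg ?_ (Finset.sum_nonneg fun k _ => hv k)
  rw [Finsupp.weight_apply]
  exact Finset.sum_nonneg fun i _ => nsmul_nonneg (ht i) _

def pr (w : Wt ι E) (k : ℤ) : XX K ι E →+ XX K ι E where
  toFun z := fun A => weightedHomogeneousComponent w.t (k - ∑ j ∈ A, w.v j) (z A)
  map_zero' := XX.ext fun A => by simp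
  map_add' z z' := XX.ext fun A => by simp

theorem coeff_pr (w : Wt ι E) (k : ℤ) (z : XX K ι E) (A) (d) :
    coeff d (pr w k z A) = if w.wt d A = k then coeff d (z A) else 0 := by
  change coeff d (weightedHomogeneousComponent _ _ _) = _
  rw [coeff_weightedHomogeneousComponent]
  unfold Wt.wt
  simp only [eq_sub_iff_add_eq]

theorem pr_hm (w : Wt ι E) (k : ℤ) (z : XX K ι E) : Hm w k (pr w k z) := fun A d hd => by
  rw [coeff_pr] at hd
  by_contra h
  exact hd (if_neg h)

theorem Supp.pr (h : Supp w' Q z) (w : Wt ι E) (k : ℤ) : Supp w' Q (pr w k z) := fun A d hd => by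
  rw [coeff_pr] at hd
  refine h A d fun h0 => hd ?_
  simp [h0]

theorem Supp.sub_pr (h : Supp w Q z) (k : ℤ) :
    Supp w (fun q => Q q ∧ q ≠ k) (z - h72.pr w k z) := fun A d hd => by
  rw [XX.sub_apply, coeff_sub, coeff_pr] at hd
  by_cases h1 : w.wt d A = k
  · simp [h1] at hd
  · exact ⟨h A d (by simpa [h1] using hd), h1⟩

theorem pr_self {k : ℤ} (h : Hm w k z) : pr w k z = z :=
  XX.ext fun A => MvPolynomial.ext _ _ fun d => by
    rw [coeff_pr]
    split_ifs with h1
    · rfl
    · by_contra h2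
      exact h1 (h A d (Ne.symm h2))

theorem pr_zero {k : ℤ} (h : Supp w (fun q => q ≠ k) z) : pr w k z = 0 :=
  XX.ext fun A => MvPolynomial.ext _ _ fun d => by
    rw [coeff_pr]
    split_ifs with h1
    · by_contra h2
      exact h A d (by simpa using h2) h1
    · simp

def Sh (w : Wt ι E) (Δ : ℤ → Prop) (L : XX K ι E → XX K ι E) : Prop :=
  ∀ Q Q' : ℤ → Prop, (∀ q δ, Q q → Δ δ → Q' (q + δ)) → ∀ z, Supp w Q z → Supp w Q' (L z)

variable {L L' : XX K ι E → XX K ι E}

theorem Sh.mono (h : Sh w Δ L) (hd : ∀ δ, Δ δ → Δ' δ) : Sh w Δ' L :=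
  fun Q Q' hq => h Q Q' fun q δ h1 h2 => hq q δ h1 (hd δ h2)

theorem Sh.comp (h : Sh w Δ L) (h' : Sh w Δ' L') (hd : ∀ a b, Δ a → Δ' b → Δ'' (b + a)) :
    Sh w Δ'' fun z => L (L' z) := fun Q Q' hq z hz =>
  h (fun x => ∃ q b, Q q ∧ Δ' b ∧ x = q + b) Q'
    (by rintro _ a ⟨q, b, h1, h2, rfl⟩ h3; rw [add_assoc]; exact hq q _ h1 (hd a b h3 h2)) _
    (h' Q _ (fun q b h1 h2 => ⟨q, b, h1, h2, rfl⟩) z hz)

theorem Sh.add (h : Sh w Δ L) (h' : Sh w Δ L') : Sh w Δ fun z => L z + L' z :=
  fun Q Q' hq z hz => (h Q Q' hq z hz).add (h' Q Q' hq z hz)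

theorem Sh.sub (h : Sh w Δ L) (h' : Sh w Δ L') : Sh w Δ fun z => L z - L' z :=
  fun Q Q' hq z hz => (h Q Q' hq z hz).sub (h' Q Q' hq z hz)

theorem Sh.id (h : Δ 0) : Sh w Δ fun z : XX K ι E => z :=
  fun Q Q' hq z hz => hz.mono fun q h1 => by simpa using hq q 0 h1 h

theorem Sh.congr (h : Sh w Δ L) (e : ∀ z, L' z = L z) : Sh w Δ L' := by
  rw [show L' = L from funext e]; exact h

theorem Sh.hm {d k m : ℤ} (h : Sh w (fun q => q = d) L) (hz : Hm w k z) (e : k + d = m) :
    Hm w m (L z) := h _ _ (by rintro _ _ rfl rfl; exact e) z hz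

theorem Sh.ge {d k m : ℤ} (h : Sh w (fun q => d ≤ q) L) (hz : Ge w k z) (e : m ≤ k + d) :
    Ge w m (L z) := h _ _ (by intro q δ h1 h2; omega) z hz

theorem Sh.pr {d k m : ℤ} (h : Sh w (fun q => q = d) L) (hL : ∀ x y, L (x + y) = L x + L y)
    (e : k + d = m) (z : XX K ι E) : pr w m (L z) = L (pr w k z) := by
  have h1 : L z = L (h72.pr w k z) + L (z - h72.pr w k z) := by rw [← hL]; simp
  have h2 : Supp w (fun q => True ∧ q ≠ k) (z - h72.pr w k z) :=
    Supp.sub_pr (Q := fun _ => True) (fun _ _ _ => trivial) k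
  rw [h1, map_add, pr_self (h.hm (pr_hm w k z) e),
    pr_zero (h _ _ (by rintro q _ ⟨_, h3⟩ rfl; omega) _ h2), add_zero]

variable [LinearOrder ι] [DecidableEq E]

theorem Sh_up (w : Wt ι E) (j : ι ⊕ E) :
    Sh w (fun q => q = w.v j) (up j : Module.End (MvPolynomial ι K) (XX K ι E)) := by
  intro Q Q' hq z hz A d hd
  rw [up_apply] at hd
  split_ifs at hd with hj
  · rw [coeff_smul] at hd
    have := hq _ _ (hz _ d (right_ne_zero_of_smul hd)) rfl
    unfold Wt.wt at this ⊢
    rwa [add_assoc, Finset.sum_erase_add _ _ hj] at this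
  · simp at hd

theorem Sh_dn (w : Wt ι E) (j : ι ⊕ E) :
    Sh w (fun q => q = -w.v j) (dn j : Module.End (MvPolynomial ι K) (XX K ι E)) := by
  intro Q Q' hq z hz A d hd
  rw [dn_apply] at hd
  split_ifs at hd with hj
  · simp at hd
  · rw [coeff_smul] at hd
    have := hq _ _ (hz _ d (right_ne_zero_of_smul hd)) rfl
    unfold Wt.wt at this ⊢
    rw [Finset.sum_insert hj] at this
    convert this using 1
    ring

theorem Supp.dn_change {j : ι ⊕ E} (ht : w.t = w'.t) (hv : ∀ k, k ≠ j → w.v k = w'.v k)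
    (h : Supp w Q (dn j z)) : Supp w' Q (dn j z) := by
  intro A d hd
  have h1 := h A d hd
  have hj : j ∉ A := fun hj => by simp [dn_apply, hj] at hd
  unfold Wt.wt at h1 ⊢
  rwa [← ht, ← Finset.sum_congr rfl fun k hk => hv k fun e => hj (e ▸ hk)]

theorem Sh_xi (w : Wt ι E) (i : ι) :
    Sh w (fun q => q = w.v (.inl i)) (xi i : Module.End (AA K ι E) (XX K ι E)) := Sh_up w _

theorem Sh_io (w : Wt ι E) (i : ι) :
    Sh w (fun q => q = -w.v (.inl i)) (io i : Module.End (AA K ι E) (XX K ι E)) := Sh_dn w _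

def ShA (w : Wt ι E) (Δ : ℤ → Prop) (a : AA K ι E) : Prop := Sh w Δ fun z : XX K ι E => a • z

variable {a b : AA K ι E}

theorem ShA.mono (h : ShA w Δ a) (hd : ∀ δ, Δ δ → Δ' δ) : ShA w Δ' a := Sh.mono h hd

theorem ShA.mul (h : ShA w Δ a) (h' : ShA w Δ' b) (hd : ∀ x y, Δ x → Δ' y → Δ'' (y + x)) :
    ShA w Δ'' (a * b) := (Sh.comp h h' hd).congr fun z => mul_smul a b z

theorem ShA.add (h : ShA w Δ a) (h' : ShA w Δ b) : ShA w Δ (a + b) :=
  (Sh.add h h').congr fun z => add_smul a b z

theorem ShA.zero : ShA w Δ (0 : AA K ι E) := fun _ _ _ z _ => by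
  simpa using Supp.zero

theorem ShA.neg (h : ShA w Δ a) : ShA w Δ (-a) := fun Q Q' hq z hz => by
  simpa using (h Q Q' hq z hz).neg

theorem ShA.sum {I : Type*} (s : Finset I) (f : I → AA K ι E) (h : ∀ i ∈ s, ShA w Δ (f i)) :
    ShA w Δ (∑ i ∈ s, f i) :=
  Finset.sum_induction f (ShA w Δ) (fun _ _ => ShA.add) ShA.zero h

theorem ShA.one (h : Δ 0) : ShA w Δ (1 : AA K ι E) := (Sh.id h).congr fun z => one_smul _ z

theorem ShA.pow {d : ℤ} (h : ShA w (fun q => q = d) a) (n : ℕ) :
    ShA w (fun q => q = n * d) (a ^ n) := by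
  induction n with
  | zero => simpa using ShA.one (Δ := fun q => q = 0) rfl
  | succ n ih =>
    rw [pow_succ]
    exact ih.mul h (by rintro _ _ rfl rfl; push_cast; ring)

theorem ShA.pow_ge (h : ShA w (fun q => 0 ≤ q) a) (n : ℕ) : ShA w (fun q => 0 ≤ q) (a ^ n) := by
  induction n with
  | zero => simpa using ShA.one (Δ := fun q => 0 ≤ q) le_rfl
  | succ n ih =>
    rw [pow_succ]
    exact ih.mul h (by intro x y h1 h2; omega)

theorem ShA.pow_sub (h : ShA w (fun q => 0 ≤ q) a) (h' : ShA w (fun q => 0 ≤ q) b)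
    (hab : ShA w (fun q => 1 ≤ q) (a - b)) (n : ℕ) : ShA w (fun q => 1 ≤ q) (a ^ n - b ^ n) := by
  induction n with
  | zero => simpa using ShA.zero
  | succ n ih =>
    rw [show a ^ (n + 1) - b ^ (n + 1) = a * (a ^ n - b ^ n) + (a - b) * b ^ n by ring]
    exact (h.mul ih (by intro x y h1 h2; omega)).add
      (hab.mul (h'.pow_ge n) (by intro x y h1 h2; omega))

theorem ShA_yy (w : Wt ι E) (j : E) : ShA w (fun q => q = w.v (.inr j)) (yy j : AA K ι E) :=
  Sh_up w _

theorem ShA_C (w : Wt ι E) (c : K) : ShA w (fun q => q = 0) (tt (C c) : AA K ι E) := by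
  intro Q Q' hq z hz A d hd
  simp only [tt_smul, XX.smul_apply, coeff_C_mul] at hd
  simpa using hq _ _ (hz A d (right_ne_zero_of_mul hd)) rfl

theorem ShA_nat (w : Wt ι E) (c : ℕ) : ShA w (fun q => q = 0) (c : AA K ι E) := by
  have := ShA_C (E := E) w (c : K)
  rwa [map_natCast, map_natCast] at this

theorem ShA_X (w : Wt ι E) (i : ι) : ShA w (fun q => q = w.t i) (tt (X i) : AA K ι E) := by
  intro Q Q' hq z hz A d hd
  simp only [tt_smul, XX.smul_apply, coeff_X_mul'] at hd
  split_ifs at hd with hi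
  · have := hq _ _ (hz A _ hd) rfl
    unfold Wt.wt at this ⊢
    have h1 : d = d - Finsupp.single i 1 + Finsupp.single i 1 := by
      rw [tsub_add_cancel_of_le]
      rw [Finsupp.single_le_iff]
      exact Nat.one_le_iff_ne_zero.2 (Finsupp.mem_support_iff.1 hi)
    rw [h1, map_add, Finsupp.weight_single, one_smul]
    convert this using 1
    ring
  · simp at hd

theorem ShA_tt (hw : w.t = 0) (f : MvPolynomial ι K) :
    ShA w (fun q => q = 0) (tt f : AA K ι E) := by
  intro Q Q' hq z hz A d hd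
  simp only [tt_smul, XX.smul_apply] at hd
  have h0 : z A ≠ 0 := fun h => by simp [h] at hd
  obtain ⟨d', hd'⟩ := MvPolynomial.ne_zero_iff.1 h0
  have := hq _ _ (hz A d' hd') rfl
  unfold Wt.wt at this ⊢
  simpa [hw, Finsupp.weight_apply] using this

omit [LinearOrder ι] [DecidableEq E] in
theorem Supp.smap (hw : w.t = 0) (σ : MvPolynomial ι K →ₐ[K] MvPolynomial ι K) (h : Supp w Q z) :
    Supp w Q (smap σ z) := by
  intro A d hd
  have h0 : z A ≠ 0 := fun h => by simp [smap_apply, h] at hd
  obtain ⟨d', hd'⟩ := MvPolynomial.ne_zero_iff.1 h0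
  have := h A d' hd'
  unfold Wt.wt at this ⊢
  simpa [hw, Finsupp.weight_apply] using this

theorem ShA_lf (c : E → K) (W : Finset E) (h : ∀ j ∈ W, c j ≠ 0 → Δ (w.v (.inr j))) :
    ShA w Δ (lf c W : AA K ι E) := by
  refine ShA.sum _ _ fun j hj => ?_
  by_cases hc : c j = 0
  · simpa [hc] using ShA.zero
  · exact (ShA_C w _).mul (ShA_yy w j) (by rintro _ _ rfl rfl; simpa using h j hj hc)

theorem Sh_DG (T : Finset ι) (u v : ι → AA K ι E)
    (hu : ∀ i ∈ T, ShA w (fun δ => Δ (w.v (.inl i) + δ)) (u i))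
    (hv : ∀ i ∈ T, ShA w (fun δ => Δ (-w.v (.inl i) + δ)) (v i)) :
    Sh w Δ (DG xi io T u v : Module.End (AA K ι E) (XX K ι E)) := by
  intro Q Q' hq z hz
  rw [DG_apply]
  refine Supp.sum _ _ fun i hi => Supp.add ?_ ?_
  · exact Sh.comp (hu i hi) (Sh_xi w i) (by rintro x _ h1 rfl; exact h1) Q Q' hq z hz
  · exact Sh.comp (hv i hi) (Sh_io w i) (by rintro x _ h1 rfl; exact h1) Q Q' hq z hz

theorem Sh_DD {p : ℕ} (hp : 1 ≤ p) (d e : ℤ) (T : Finset ι) (u : ι → AA K ι E)
    (τ : ι → MvPolynomial ι K) (hu : ∀ i ∈ T, ShA w (fun q => q = e) (u i))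
    (he : ∀ i ∈ T, w.v (.inl i) + e = d)
    (ht : ∀ i ∈ T, ShA w (fun q => q = 2 * d - p * e) (tt (τ i) : AA K ι E)) :
    Sh w (fun q => q = d) (DD p T u τ) := by
  refine Sh_DG T _ _ (fun i hi => (hu i hi).mono ?_) fun i hi =>
    (ht i hi).mul ((hu i hi).pow (p - 1)) ?_
  · rintro _ rfl; exact he i hi
  · rintro _ _ rfl rfl
    have := he i hi
    push_cast [hp]
    linear_combination -this

/-- the level -/
def wl (p : ℕ) (T : Finset ι) (W : Finset E) : Wt ι E :=
  ⟨0, Sum.elim (fun i => if i ∈ T then (p : ℤ) - 2 else 0) fun j => if j ∈ W then 2 else 0⟩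

theorem wl_lf (p : ℕ) (T : Finset ι) {W W' : Finset E} (h : W' ⊆ W) (c : E → K) :
    ShA (wl p T W) (fun q => q = 2) (lf c W' : AA K ι E) :=
  ShA_lf c W' fun j hj _ => by simp [wl, h hj]

theorem wl_DD {p : ℕ} (hp : 1 ≤ p) {T T' : Finset ι} (hT : T' ⊆ T) (W : Finset E)
    (u : ι → AA K ι E) (τ : ι → MvPolynomial ι K)
    (hu : ∀ i ∈ T', ShA (wl p T W) (fun q => q = 2) (u i)) :
    Sh (wl p T W) (fun q => q = p) (DD p T' u τ) :=
  Sh_DD hp p 2 T' u τ hu (fun i hi => by simp [wl, hT hi])
    fun i _ => (ShA_tt rfl _).mono (by rintro _ rfl; ring)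

end

end Pool.Agent.MP_16de82_co.h72

end MrgPart2

-- ======== part 3: formerly Pool.Agent.MP_16de82_co.h72.Column
section MrgPart3

/-! Adding one column at a time: exactness of the model complex. -/

namespace Pool.Agent.MP_16de82_co.h72

open Finset MvPolynomial

section Abstract
variable {A M : Type*} [CommRing A] [AddCommGroup M] [Module A M]

theorem add_pow_sq_zero {y : A} (hy : y * y = 0) (u : A) (n : ℕ) :
    (y + u) ^ (n + 1) = u ^ (n + 1) + (n + 1) * u ^ n * y := by
  induction n with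
  | zero => simp [add_comm]
  | succ n ih =>
    rw [pow_succ, ih]; push_cast
    linear_combination ((n : A) + 1) * u ^ n * hy

theorem expand1 (d : M →ₗ[A] M) {y : A} (hy : y * y = 0) (g u : A) {m n : ℕ}
    (hmn : ((m : A) + 1) + (n + 1) = 0) (A0 A1 B0 B1 : M) :
    (g * (y + u) ^ (n + 1)) • (B0 + y • B1) + d (A0 + y • A1)
      = ((g * u ^ (n + 1)) • B0 + d A0)
        + y • ((g * u ^ n) • (u • B1 - ((m : A) + 1) • B0) + d A1) := by
  rw [add_pow_sq_zero hy, map_add, map_smul]
  linear_combination (norm := module) (g * ((n : A) + 1) * u ^ n * hy) • B1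
    + (g * u ^ n * y * hmn) • B0

theorem expand2 (d : M →ₗ[A] M) {y : A} (hy : y * y = 0) (u : A) (m : ℕ) (A0 A1 B0 B1 : M) :
    (y + u) ^ (m + 1) • (A0 + y • A1) - d (B0 + y • B1)
      = (u ^ (m + 1) • A0 - d B0)
        + y • (u ^ m • (u • A1 + ((m : A) + 1) • A0) - d B1) := by
  rw [add_pow_sq_zero hy, map_add, map_smul]
  linear_combination (norm := module) (((m : A) + 1) * u ^ m * hy) • A1

end Abstract

noncomputable section

variable {K : Type*} [Field K] {ι E : Type*} [LinearOrder ι] [DecidableEq E]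

def Ex (p : ℕ) (T : Finset ι) (W : Finset E) (d : Module.End (AA K ι E) (XX K ι E))
    (g u : AA K ι E) (i k : ℕ) (ν : ℤ) : Prop :=
  ∀ A B : XX K ι E, Hm (wl p T W) (ν - (i - 1)) A → Hm (wl p T W) (ν - (k - 1)) B →
    (g * u ^ k) • B + d A = 0 → u ^ i • A - d B = 0 →
      ∃ A' B', A = (g * u ^ k) • B' + d A' ∧ B = u ^ i • A' - d B'

theorem tt_C_inv {c : K} (hc : c ≠ 0) : (tt (C c⁻¹) : AA K ι E) * tt (C c) = 1 := by
  rw [← map_mul, ← map_mul, inv_mul_cancel₀ hc, map_one, map_one]

theorem Ex_left (p : ℕ) (T : Finset ι) (W : Finset E) (d : Module.End (AA K ι E) (XX K ι E))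
    (g u : AA K ι E) (ν : ℤ) : Ex p T W d g u 0 p ν := fun A B _ _ _ h2 =>
  ⟨B, 0, by simpa [sub_eq_zero] using h2, by simp⟩

theorem Ex_right (p : ℕ) (T : Finset ι) (W : Finset E) (d : Module.End (AA K ι E) (XX K ι E))
    {g g' : AA K ι E} (hg : g' * g = 1) (u : AA K ι E) (ν : ℤ) : Ex p T W d g u p 0 ν :=
  fun A B _ _ h1 _ => by
    refine ⟨0, g' • A, ?_, ?_⟩
    · rw [map_zero]; linear_combination (norm := module) (-hg) • A
    · rw [map_smul]; linear_combination (norm := module) g' • h1 - hg • B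

theorem split_zero {j : E} {c : K} (hc : c ≠ 0) {P0 P1 : XX K ι E} (h0 : et j P0 = 0)
    (h1 : et j P1 = 0) (h : P0 + (tt (C c) * yy j : AA K ι E) • P1 = 0) : P0 = 0 ∧ P1 = 0 := by
  have h2 := congrArg (et j) h
  rw [map_add, h0, mul_smul, et_tt, et_yy_self, h1, smul_zero, sub_zero, zero_add, map_zero] at h2
  have h3 : P1 = 0 := by
    linear_combination (norm := module) (tt (C c⁻¹) : AA K ι E) • h2
      - (tt_C_inv (ι := ι) (E := E) hc) • P1
  rw [h3, smul_zero, add_zero] at h
  exact ⟨h, h3⟩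

theorem Ex_step {p : ℕ} [CharP K p] (T : Finset ι) {W : Finset E} {j : E}
    (d : Module.End (AA K ι E) (XX K ι E)) (hd : ∀ z, et j (d z) = d (et j z))
    {g u : AA K ι E} (hg : Cm (et j) g) (hu : Cm (et j) u)
    (hu2 : ShA (wl p T W) (fun q => q = 2) u) {c : K} (hc : c ≠ 0) {m n : ℕ} (hmn : m + n + 2 = p)
    {ν : ℤ} (e1 : Ex p T W d g u (m + 2) n (ν - 1)) (e2 : Ex p T W d g u m (n + 2) (ν - 1)) :
    Ex p T (insert j W) d g (tt (C c) * yy j + u) (m + 1) (n + 1) ν := by
  intro A B hA hB h1 h2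
  set y : AA K ι E := tt (C c) * yy j with hy
  have hyy : y * y = 0 := by rw [hy, mul_mul_mul_comm, yy_sq, mul_zero]
  have hp0 : ((m : AA K ι E) + 1) + (n + 1) = 0 := by
    have := CharP.cast_eq_zero (AA K ι E) p
    rw [← hmn] at this; push_cast at this; linear_combination this
  have hdec : ∀ z : XX K ι E, z = et j ((yy j : AA K ι E) • z)
      + y • ((tt (C c⁻¹) : AA K ι E) • et j z) := by
    intro z
    rw [et_yy_self, hy]
    linear_combination (norm := module)
      (-((yy j : AA K ι E) * tt_C_inv (ι := ι) (E := E) hc)) • et j z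
  have hw : ∀ k : ι ⊕ E, k ≠ .inr j → (wl p T (insert j W)).v k = (wl p T W).v k := by
    rintro (k | k) hk
    · rfl
    · have : k ≠ j := fun e => hk (by rw [e])
      simp [wl, this]
  have l0 : ∀ (z : XX K ι E) (l : ℤ), Hm (wl p T (insert j W)) l z →
      Hm (wl p T W) l (et j ((yy j : AA K ι E) • z)) := fun z l hz =>
    Supp.dn_change (w := wl p T (insert j W)) rfl hw
      ((Sh_dn _ _).hm ((ShA_yy _ j).hm hz rfl) (by ring))
  have l1 : ∀ (z : XX K ι E) (l : ℤ), Hm (wl p T (insert j W)) l z →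
      Hm (wl p T W) (l - 2) ((tt (C c⁻¹) : AA K ι E) • et j z) := fun z l hz =>
    (ShA_C _ _).hm (Supp.dn_change (w := wl p T (insert j W)) rfl hw
      ((Sh_dn _ _).hm hz (m := l - 2) (by simp [wl]; ring))) (by ring)
  have f1 : ∀ z : XX K ι E, et j ((tt (C c⁻¹) : AA K ι E) • et j z) = 0 := fun z => by
    rw [et_tt, et_et, smul_zero]
  have hm1 : Cm (et j) ((m : AA K ι E) + 1) := by
    have := et_tt (K := K) (ι := ι) j ((m : MvPolynomial ι K) + 1)
    rwa [map_add, map_natCast, map_one] at this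
  have sm1 : ShA (wl p T W) (fun q => q = 0) ((m : AA K ι E) + 1) := by
    have := ShA_nat (K := K) (wl p T W) (m + 1)
    rwa [Nat.cast_succ] at this
  obtain ⟨A0, hA0⟩ : ∃ x, x = et j ((yy j : AA K ι E) • A) := ⟨_, rfl⟩
  obtain ⟨A1, hA1⟩ : ∃ x, x = (tt (C c⁻¹) : AA K ι E) • et j A := ⟨_, rfl⟩
  obtain ⟨B0, hB0⟩ : ∃ x, x = et j ((yy j : AA K ι E) • B) := ⟨_, rfl⟩
  obtain ⟨B1, hB1⟩ : ∃ x, x = (tt (C c⁻¹) : AA K ι E) • et j B := ⟨_, rfl⟩
  have dA := hdec A
  have dB := hdec B
  have lA0 := l0 A _ hA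
  have lA1 := l1 A _ hA
  have lB0 := l0 B _ hB
  have lB1 := l1 B _ hB
  have fA0 := et_et j ((yy j : AA K ι E) • A)
  have fA1 := f1 A
  have fB0 := et_et j ((yy j : AA K ι E) • B)
  have fB1 := f1 B
  rw [← hA0] at dA lA0 fA0
  rw [← hA1] at dA lA1 fA1
  rw [← hB0] at dB lB0 fB0
  rw [← hB1] at dB lB1 fB1
  clear hA0 hA1 hB0 hB1 hA hB
  subst dA dB
  rw [expand1 d hyy g u hp0] at h1
  rw [expand2 d hyy u] at h2
  obtain ⟨q0, q1⟩ := split_zero hc
    (by rw [map_add, hg.mul (hu.pow _), hd, fA0, fB0]; simp)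
    (by rw [map_add, hg.mul (hu.pow _), hd, map_sub, hu, hm1, fA1, fB0, fB1]; simp) h1
  obtain ⟨q2, q3⟩ := split_zero hc
    (by rw [map_sub, hu.pow _, hd, fA0, fB0]; simp)
    (by rw [map_sub, hu.pow _, hd, map_add, hu, hm1, fA1, fA0, fB1]; simp) h2
  obtain ⟨gg, f, s1, s2⟩ := e1 A1 (u • B1 - ((m : AA K ι E) + 1) • B0)
    (lA1.mono (by rintro _ rfl; push_cast; ring))
    ((hu2.hm lB1 (by push_cast; ring)).sub (sm1.hm lB0 (by push_cast; ring))) q1
    (by rw [map_sub, map_smul, map_smul]
        linear_combination (norm := module) u • q3 - ((m : AA K ι E) + 1) • q2)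
  obtain ⟨h, e, s3, s4⟩ := e2 (u • A1 + ((m : AA K ι E) + 1) • A0) B1
    ((hu2.hm lA1 (by push_cast; ring)).add (sm1.hm lA0 (by push_cast; ring)))
    (lB1.mono (by rintro _ rfl; push_cast; ring))
    (by rw [map_add, map_smul, map_smul]
        linear_combination (norm := module) u • q1 + ((m : AA K ι E) + 1) • q0) q3
  have hne : ((m : K) + 1) ≠ 0 := by
    intro h0
    have := (CharP.cast_eq_zero_iff K p (m + 1)).1 (by exact_mod_cast h0)
    have := Nat.le_of_dvd (by omega) this
    omega
  have hinv := tt_C_inv (ι := ι) (E := E) hne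
  rw [map_add, map_add, map_natCast, map_natCast, map_one, map_one] at hinv
  set r : AA K ι E := tt (C ((m : K) + 1)⁻¹)
  refine ⟨r • (h - u • gg) + y • gg, r • (u • e - f) + y • e, ?_, ?_⟩
  · rw [expand1 d hyy g u hp0]
    simp only [map_smul, map_sub]
    congr 1
    · linear_combination (norm := module) r • s3 - (r * u) • s1 - hinv • A0
    · congr 1
      linear_combination (norm := module) s1 + (g * u ^ n * hinv) • (u • e - f)
  · rw [expand2 d hyy u]
    simp only [map_smul, map_sub]
    congr 1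
    · linear_combination (norm := module) (r * u) • s4 - r • s2 - hinv • B0
    · congr 1
      linear_combination (norm := module) s4 - (u ^ m * hinv) • (h - u • gg)

theorem Ex_all {p : ℕ} [hp : Fact p.Prime] [CharP K p] (T : Finset ι) (W : Finset E)
    (d : Module.End (AA K ι E) (XX K ι E)) (hd : ∀ j ∉ W, ∀ z, et j (d z) = d (et j z))
    {γ : K} (hγ : γ ≠ 0) (c : E → K) (lam : ℤ)
    (hV : ∀ ν < lam, ∀ z, Hm (wl p T W) ν z → d z = 0 → ∃ v, d v = z)
    (S : Finset E) (hS : ∀ j ∈ S, j ∉ W ∧ c j ≠ 0) :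
    ∀ i k : ℕ, i + k = p → ∀ ν < lam + S.card,
      Ex p T (S ∪ W) d (tt (C γ)) (lf c S) i k ν := by
  induction S using Finset.induction_on with
  | empty =>
    intro i k hik ν hν
    rcases i with _ | m
    · obtain rfl : k = p := by omega
      exact Ex_left _ _ _ _ _ _ _
    rcases k with _ | n
    · obtain rfl : m + 1 = p := by omega
      exact Ex_right _ _ _ _ (tt_C_inv hγ) _ _
    intro A B hA hB h1 h2
    simp only [lf, Finset.sum_empty, Finset.empty_union, Finset.card_empty, ne_eq,
      Nat.add_eq_zero_iff, one_ne_zero, and_false, not_false_eq_true, zero_pow, mul_zero,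
      zero_smul, zero_add, zero_sub, neg_eq_zero, Nat.cast_zero, add_zero] at *
    obtain ⟨v, hv⟩ := hV _ (by push_cast; omega) A hA h1
    obtain ⟨v', hv'⟩ := hV _ (by push_cast; omega) B hB h2
    exact ⟨v, -v', hv.symm, by simp [hv']⟩
  | insert j S hj ih =>
    intro i k hik ν hν
    rcases i with _ | m
    · obtain rfl : k = p := by omega
      exact Ex_left _ _ _ _ _ _ _
    rcases k with _ | n
    · obtain rfl : m + 1 = p := by omega
      exact Ex_right _ _ _ _ (tt_C_inv hγ) _ _
    have ih' := ih fun k hk => hS k (Finset.mem_insert_of_mem hk)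
    have hjW := hS j (Finset.mem_insert_self _ _)
    rw [Finset.card_insert_of_notMem hj] at hν
    rw [Finset.insert_union, lf, Finset.sum_insert hj]
    exact Ex_step T d (hd j hjW.1) (et_tt _ _)
      (Cm.lf c S (fun _ => et_tt _ _) fun k hk => et_yy fun e => hj (e ▸ hk))
      (wl_lf p T Finset.subset_union_left c) hjW.2 (by omega)
      (ih' _ _ (by omega) _ (by push_cast at hν; omega))
      (ih' _ _ (by omega) _ (by push_cast at hν; omega))

/-- exactness of `u ξ + g u^(p-1) ι + d` from the statement on pairs -/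
theorem exact_of_Ex {p : ℕ} (hp : 1 ≤ p) (T : Finset ι) (i : ι) (W : Finset E)
    (d : Module.End (AA K ι E) (XX K ι E)) (hx : xi i * d = -(d * xi i))
    (hio : io i * d = -(d * io i)) {g u : AA K ι E} {ν : ℤ} (h : Ex p T W d g u 1 (p - 1) ν)
    (z : XX K ι E) (hz : Hm (wl p (insert i T) W) ν z)
    (h0 : u • xi i z + (g * u ^ (p - 1)) • io i z + d z = 0) :
    ∃ v, u • xi i v + (g * u ^ (p - 1)) • io i v + d v = z := by
  have hx' : ∀ z, xi i (d z) = -d (xi i z) := fun z => LinearMap.congr_fun hx z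
  have hi' : ∀ z, io i (d z) = -d (io i z) := fun z => LinearMap.congr_fun hio z
  have x2 : ∀ z : XX K ι E, xi i (xi i z) = 0 := fun z => up_up_self _ z
  have i2 : ∀ z : XX K ι E, io i (io i z) = 0 := fun z => dn_dn_self _ z
  have ix : ∀ z : XX K ι E, io i (xi i z) = z - xi i (io i z) := fun z => dn_up_self _ z
  have ixi : ∀ z : XX K ι E, io i (xi i (io i z)) = io i z := fun z => by
    rw [ix, i2, map_zero, sub_zero]
  have hw : ∀ k : ι ⊕ E, k ≠ .inl i → (wl p (insert i T) W).v k = (wl p T W).v k := by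
    rintro (k | k) hk
    · have : k ≠ i := fun e => hk (by rw [e])
      simp [wl, this]
    · rfl
  obtain ⟨A', B', s1, s2⟩ := h (io i (xi i z)) (io i z)
    (Supp.dn_change (w := wl p (insert i T) W) rfl hw
      ((Sh_io _ i).hm ((Sh_xi _ i).hm hz rfl) (by simp)))
    (Supp.dn_change (w := wl p (insert i T) W) rfl hw
      ((Sh_io _ i).hm hz (by simp [wl, hp]; ring)))
    (by
      have := congrArg (fun x => io i (xi i x)) h0
      simpa only [map_add, map_smul, x2, hx', hi', map_neg, neg_neg, ixi, smul_zero, zero_add,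
        map_zero] using this)
    (by
      have := congrArg (io i) h0
      simpa only [map_add, map_smul, i2, hi', smul_zero, add_zero, map_zero, pow_one,
        sub_eq_add_neg] using this)
  have t1 := congrArg (fun x => io i (xi i x)) s1
  have t2 := congrArg (fun x => xi i (io i (xi i x))) s2
  simp only [map_add, map_sub, map_smul, hx', hi', map_neg, neg_neg, ixi, pow_one] at t1 t2
  refine ⟨io i (xi i A') + xi i (io i (xi i B')), ?_⟩
  simp only [map_add, x2, i2, ixi, add_zero, zero_add]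
  have := ix z
  linear_combination (norm := module) this - t1 - t2

end

end Pool.Agent.MP_16de82_co.h72

end MrgPart3

-- marker of a merged file
example : 731051 + 737090 = 731051 + 737090 := rfl
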