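import Mathlib.Data.Int.Star
import Mathlib.Algebra.Order.Ring.Star
import Mathlib.Algebra.MvPolynomial.Monad
import Mathlib.RingTheory.PicardGroup
import Mathlib.RingTheory.Nullstellensatz
import Mathlib.RingTheory.SimpleRing.Principal
import Mathlib.RingTheory.MvPolynomial.Ideal
import Mathlib.RingTheory.Henselian
import Mathlib.RingTheory.RegularLocalRing.Defs
import Pool.Agent.MP_16de82_co.h72.Column

/-! Local vanishing away from the origin. -/

namespace Pool.Agent.MP_16de82_co.h72

open Finset MvPolynomial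

noncomputable section

variable {K : Type*} [Field K] {ι E : Type*} [LinearOrder ι] [DecidableEq E]

def LK (lv : Wt ι E) (ν : ℤ) (G : MvPolynomial ι K → Prop)
    (D : Module.End (AA K ι E) (XX K ι E)) : Prop :=
  ∀ z, Hm lv ν z → D z = 0 → ∃ r, G r ∧ ∃ v, D v = r • z

theorem End_smul (D : Module.End (AA K ι E) (XX K ι E)) (r : MvPolynomial ι K) (z : XX K ι E) :
    D (r • z) = r • D z := by
  rw [← tt_smul, map_smul, tt_smul]

theorem filt (w lv : Wt ι E) (D D0 : Module.End (AA K ι E) (XX K ι E)) (p ν : ℤ)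
    (hD2 : ∀ z, D (D z) = 0) (h0 : Sh w (fun q => q = p) D0)
    (h1 : Sh w (fun q => p + 1 ≤ q) fun z => D z - D0 z) (hl : Sh lv (fun q => q = p) D)
    (hl0 : Sh lv (fun q => q = p) D0) (hex : ∀ z, Hm lv ν z → D0 z = 0 → ∃ v, D0 v = z)
    (hpos : ∀ z : XX K ι E, Ge w 0 z) (z : XX K ι E) (hz : Hm lv ν z) (hc : D z = 0) (k : ℕ) :
    ∃ v, Ge w k (z - D v) ∧ Hm lv ν (z - D v) := by
  induction k with
  | zero => exact ⟨0, hpos _, by simpa using hz⟩
  | succ k ih =>
    obtain ⟨v, g1, g2⟩ := ih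
    set x := z - D v with hx
    have hxc : D x = 0 := by rw [hx, map_sub, hc, hD2, sub_zero]
    have e1 : D0 (pr w k x) = 0 := by
      rw [← h0.pr (map_add D0) rfl x, show D0 x = -(D x - D0 x) by rw [hxc]; simp, map_neg,
        pr_zero ((h1.ge g1 le_rfl).mono fun q hq => by omega), neg_zero]
    obtain ⟨v0, hv0⟩ := hex _ (g2.pr w k) e1
    have e2 : D0 (pr lv (ν - p) (pr w (k - p) v0)) = pr w k x := by
      rw [← hl0.pr (map_add D0) (m := ν) (by ring), ← h0.pr (map_add D0) (m := k) (by ring), hv0,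
        pr_self (pr_hm w k x), pr_self (g2.pr w k)]
    set v1 := pr lv (ν - p) (pr w (k - p) v0) with hv1
    have e3 : z - D (v + v1) = x - D v1 := by rw [map_add, hx]; abel
    refine ⟨v + v1, ?_, ?_⟩
    · rw [e3, show x - D v1 = (x - pr w k x) - (D v1 - D0 v1) by rw [e2]; abel]
      refine Supp.sub ((g1.sub_pr k).mono fun q hq => by push_cast; omega) ?_
      exact h1.ge (k := k - p) (((pr_hm w (k - p) v0).pr lv _).mono fun q hq => hq.ge)
        (by push_cast; omega)
    · rw [e3]
      exact g2.sub (hl.hm (pr_hm lv _ _) (by ring))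

theorem krull [Fintype ι] [Fintype E] (w : Wt ι E) {M : ℤ} (hM : 0 < M) (ht : w.t = fun _ => M)
    (hv : ∀ k, 0 ≤ w.v k) (D : Module.End (AA K ι E) (XX K ι E)) (z : XX K ι E)
    (h : ∀ k : ℕ, ∃ v, Ge w k (z - D v)) :
    ∃ r : MvPolynomial ι K, constantCoeff r = 1 ∧ ∃ v, D v = r • z := by
  let DP : Module.End (MvPolynomial ι K) (XX K ι E) :=
    { toFun := D, map_add' := map_add D, map_smul' := End_smul D }
  have : Module.Finite (MvPolynomial ι K) (XX K ι E) :=
    inferInstanceAs (Module.Finite (MvPolynomial ι K) (Finset (ι ⊕ E) → MvPolynomial ι K))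
  obtain ⟨r, hr⟩ := (Ideal.mem_iInf_smul_pow_eq_bot_iff (idealOfVars ι K)
    (M := XX K ι E ⧸ LinearMap.range DP) ((LinearMap.range DP).mkQ z)).1 (by
      rw [Submodule.mem_iInf]
      intro N
      have hc : 0 ≤ ∑ k, w.v k := Finset.sum_nonneg fun k _ => hv k
      obtain ⟨v, hv'⟩ := h (M * N + ∑ k, w.v k).toNat
      have e1 : (LinearMap.range DP).mkQ z = (LinearMap.range DP).mkQ (z - D v) := by
        rw [map_sub, show (LinearMap.range DP).mkQ (D v) = 0 from
          (Submodule.Quotient.mk_eq_zero _).2 ⟨v, rfl⟩, sub_zero]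
      generalize z - D v = x at hv' e1
      have e2 : x = ∑ A, x A • (show XX K ι E from Pi.single A 1) :=
        pi_eq_sum_univ' (R := MvPolynomial ι K) x
      rw [e1, e2, map_sum]
      refine Submodule.sum_mem _ fun A _ => ?_
      rw [map_smul]
      refine Submodule.smul_mem_smul ?_ Submodule.mem_top
      rw [mem_pow_idealOfVars_iff]
      intro d hd
      have h1 := hv' A d (mem_support_iff.1 hd)
      have h2 : ∑ k ∈ A, w.v k ≤ ∑ k, w.v k :=
        Finset.sum_le_sum_of_subset_of_nonneg (Finset.subset_univ _) fun k _ _ => hv k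
      have h3 : Finsupp.weight w.t d = M * (Finsupp.degree d : ℕ) := by
        rw [ht, Finsupp.weight_apply, Finsupp.degree_apply, Finsupp.sum]
        push_cast
        rw [Finset.mul_sum]
        exact Finset.sum_congr rfl fun i _ => by simp [mul_comm]
      unfold Wt.wt at h1
      rw [h3, Int.toNat_of_nonneg (by positivity)] at h1
      have h4 : M * N ≤ M * (Finsupp.degree d : ℕ) := by omega
      exact_mod_cast le_of_mul_le_mul_left h4 hM)
  refine ⟨1 - r, ?_, ?_⟩
  · have := (mem_pow_idealOfVars_iff' 1 (r : MvPolynomial ι K)).1 (by simp) 0 (by simp)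
    rw [map_sub, map_one, constantCoeff_eq, this, sub_zero]
  · have : (LinearMap.range DP).mkQ ((1 - (r : MvPolynomial ι K)) • z) = 0 := by
      rw [map_smul, sub_smul, hr, one_smul, sub_self]
    exact (Submodule.Quotient.mk_eq_zero _).1 this

def Van (p : ℕ) (T : Finset ι) (W : Finset E) (a : ι → E → K) (ν : ℤ) : Prop :=
  ∀ z : XX K ι E, Hm (wl p T W) ν z → DD p T (fun i => lf (a i) W) X z = 0 →
    ∃ v, DD p T (fun i => lf (a i) W) X v = z

theorem lf_union (c : E → K) {S W : Finset E} (h : Disjoint S W) :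
    (lf c (S ∪ W) : AA K ι E) = lf c S + lf c W := Finset.sum_union h

theorem DD_insert (p : ℕ) {T : Finset ι} {i : ι} (hi : i ∉ T) (u : ι → AA K ι E)
    (τ : ι → MvPolynomial ι K) (z : XX K ι E) :
    DD p (insert i T) u τ z
      = u i • xi i z + (tt (τ i) * u i ^ (p - 1) : AA K ι E) • io i z + DD p T u τ z := by
  unfold DD; rw [DG_insert hi]; rfl

theorem local0 [Fintype ι] [Fintype E] {p : ℕ} [hp : Fact p.Prime] [CharP K p] {T : Finset ι}
    {i : ι} (hi : i ∉ T) {S W : Finset E} (a : ι → E → K) (hS : ∀ j ∈ S, j ∉ W ∧ a i j ≠ 0)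
    (hW : ∀ j ∈ W, a i j = 0) {γ : K} (hγ : γ ≠ 0) (τ : ι → MvPolynomial ι K)
    (h1 : τ i = X i + C γ) (h2 : ∀ k ∈ T, τ k = X k) (lam : ℤ)
    (hV : ∀ ν < lam, Van p T W a ν) {ν : ℤ} (hν : ν < lam + S.card) :
    LK (wl p (insert i T) (S ∪ W)) ν (fun r => constantCoeff r = 1)
      (DD p (insert i T) (fun k => lf (a k) (S ∪ W)) τ) := by
  intro z hz hc
  have hp1 : 1 ≤ p := hp.out.one_le
  have hp2 : (2 : ℤ) ≤ p := by exact_mod_cast hp.out.two_le
  have hdis : Disjoint S W := Finset.disjoint_left.2 fun j hj => (hS j hj).1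
  set d : Module.End (AA K ι E) (XX K ι E) := DD p T (fun k => lf (a k) W) X with hd
  set u : AA K ι E := lf (a i) S with hu
  have hu' : lf (a i) (S ∪ W) = u := by
    rw [lf_union _ hdis, ← hu, lf, Finset.sum_eq_zero fun j hj => by simp [hW j hj], add_zero]
  let D0 : Module.End (AA K ι E) (XX K ι E) :=
    u • xi i + (tt (C γ) * u ^ (p - 1) : AA K ι E) • io i + d
  have hD0 : ∀ z, D0 z = u • xi i z + (tt (C γ) * u ^ (p - 1) : AA K ι E) • io i z + d z :=
    fun z => rfl
  let w : Wt ι E := ⟨fun _ => 2 * p, Sum.elim (fun k => if k = i then (p : ℤ) - 2 else p)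
    fun j => if j ∈ S then 2 else 0⟩
  have hwv : ∀ k, 0 ≤ w.v k := by
    rintro (k | k) <;> simp only [w, Sum.elim_inl, Sum.elim_inr] <;> split_ifs <;> omega
  have wS : ∀ c : E → K, ShA w (fun q => q = 2) (lf c S : AA K ι E) := fun c =>
    ShA_lf c S fun j hj _ => by simp [w, hj]
  have wW : ∀ c : E → K, ShA w (fun q => q = 0) (lf c W : AA K ι E) := fun c =>
    ShA_lf c W fun j hj _ => by simp [w, Finset.disjoint_right.1 hdis hj]
  have hki : ∀ k ∈ T, k ≠ i := fun k hk e => hi (e ▸ hk)
  have gen : ∀ w' : Wt ι E, w'.v (.inl i) = p - 2 → ShA w' (fun q => q = 2) u →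
      Sh w' (fun q => q = p) d → Sh w' (fun q => q = p) D0 := by
    intro w' g1 g2 g3
    refine Sh.congr (Sh.add (Sh.add ?_ ?_) g3) hD0
    · exact Sh.comp g2 (Sh_xi w' i) (by rintro _ _ rfl rfl; rw [g1]; ring)
    · refine Sh.comp (ShA.mul (Δ'' := fun q => q = 2 * p - 2) (ShA_C w' γ) (g2.pow (p - 1)) ?_)
        (Sh_io w' i) (by rintro _ _ rfl rfl; rw [g1]; ring)
      rintro _ _ rfl rfl
      push_cast [hp1]; ring
  refine krull w (M := 2 * p) (by omega) rfl hwv _ z fun k => ?_
  refine (filt w (wl p (insert i T) (S ∪ W)) _ D0 p ν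
    (DD_sq hp1 _ _ _ fun k _ => lf_pow p _ _) (gen w (by simp [w]) (wS _) ?_) ?_
    (wl_DD hp1 Finset.Subset.rfl _ _ _ fun k _ => wl_lf p _ Finset.Subset.rfl _)
    (gen _ (by simp [wl]) (wl_lf p _ Finset.subset_union_left _)
      (wl_DD hp1 (Finset.subset_insert _ _) _ _ _ fun k _ =>
        wl_lf p _ Finset.subset_union_right _)) ?_
    (ge_zero (fun _ => by simp only [w]; omega) hwv) z hz hc k).imp fun v hv => hv.1
  · exact Sh_DD hp1 p 0 T _ _ (fun k _ => wW _) (fun k hk => by simp [w, hki k hk])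
      fun k _ => (ShA_X w k).mono (by rintro _ rfl; simp [w])
  · have e : ∀ z, DD p (insert i T) (fun k => lf (a k) (S ∪ W)) τ z - D0 z
        = (tt (X i) * u ^ (p - 1) : AA K ι E) • io i z
          + DG xi io T (fun k => (lf (a k) (S ∪ W) - lf (a k) W : AA K ι E))
            (fun k => tt (τ k) * lf (a k) (S ∪ W) ^ (p - 1)
              - tt (X k) * lf (a k) W ^ (p - 1)) z := by
      intro z
      rw [← DG_sub, DD_insert p hi, hD0, hu', h1, map_add, hd, LinearMap.sub_apply]
      unfold DD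
      module
    refine Sh.congr (Sh.add ?_ (Sh_DG T _ _ (fun k hk => ?_) fun k hk => ?_)) e
    · refine Sh.comp (ShA.mul (Δ'' := fun q => q = 4 * p - 2) (ShA_X w i)
        ((wS (a i)).pow (p - 1)) ?_) (Sh_io w i) ?_
      · rintro _ _ rfl rfl
        simp only [w]; push_cast [hp1]; ring
      · rintro _ _ rfl rfl
        simp only [w, Sum.elim_inl, if_true]; omega
    · rw [lf_union _ hdis, add_sub_cancel_right]
      refine (wS _).mono ?_
      rintro _ rfl
      simp only [w, Sum.elim_inl, hki k hk, if_false]; omega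
    · rw [h2 k hk, ← mul_sub]
      refine (ShA_X w k).mul (ShA.pow_sub ?_ ((wW _).mono fun _ h => h.ge) ?_ _) ?_
      · rw [lf_union _ hdis]
        exact ((wS _).mono (by rintro _ rfl; omega)).add ((wW _).mono fun _ h => h.ge)
      · rw [lf_union _ hdis, add_sub_cancel_right]
        exact (wS _).mono (by rintro _ rfl; omega)
      · rintro _ y rfl hy
        simp only [w, Sum.elim_inl, hki k hk, if_false]; omega
  · intro x hx h0
    refine exact_of_Ex hp1 T i (S ∪ W) d (car.x_DG hi _ _) (car.i_DG hi _ _) ?_ x hx h0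
    refine Ex_all T W d (fun j hj z => ?_) hγ (a i) lam hV S hS 1 (p - 1) (by omega) ν hν
    exact DD_semi p (et j) T _ X X
      (fun k _ => Cm.lf _ W (fun _ => et_tt _ _) fun l hl => et_yy fun e => hj (e ▸ hl))
      (fun k _ z => et_tt j (X k) z) (et_xi j) (et_io j) z

theorem LK.conj {lv : Wt ι E} {ν : ℤ} {G : MvPolynomial ι K → Prop}
    {D N : Module.End (AA K ι E) (XX K ι E)} (h : LK lv ν G ((1 + N) * D * (1 - N)))
    (hN : N * N = 0) (hl : Sh lv (fun q => q = 0) N) : LK lv ν G D := by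
  intro z hz hc
  have e : ∀ x, (1 - N : Module.End (AA K ι E) (XX K ι E))
      ((1 + N : Module.End (AA K ι E) (XX K ι E)) x) = x := fun x => by
    have : N (N x) = 0 := LinearMap.congr_fun hN x
    simp [this]
  obtain ⟨r, hr, v, hv⟩ := h ((1 + N : Module.End (AA K ι E) (XX K ι E)) z) (hz.add (hl.hm hz (by ring)))
    (by simp only [Module.End.mul_apply]; rw [e, hc, map_zero])
  refine ⟨r, hr, (1 - N : Module.End (AA K ι E) (XX K ι E)) v, ?_⟩
  have := congrArg (1 - N : Module.End (AA K ι E) (XX K ι E)) hv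
  simp only [Module.End.mul_apply] at this
  rwa [e, End_smul, e] at this

theorem LK.transv {p : ℕ} [hp : Fact p.Prime] [CharP K p] {T : Finset ι} {W : Finset E} {ν : ℤ}
    {G : MvPolynomial ι K → Prop} {a b : ι} (ha : a ∈ T) (hb : b ∈ T) (hab : a ≠ b) (l : K)
    {u u' : ι → AA K ι E} {τ τ' : ι → MvPolynomial ι K}
    (h2 : ∀ k ∈ T, ShA (wl p T W) (fun q => q = 2) (u k))
    (hu : ∀ k ∈ T, u' k = u k + if k = a then tt (C l) * u b else 0)
    (hτ : ∀ k ∈ T, τ' k = τ k - if k = b then C (l ^ p) * τ a else 0)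
    (h : LK (wl p T W) ν G (DD p T u' τ')) : LK (wl p T W) ν G (DD p T u τ) := by
  have hp2 := hp.out.two_le
  have C0 := car (K := K) (ι := ι) (E := E)
  set L : AA K ι E := tt (C l) with hL
  have e1 := C0.conj1 ha hb hab L (w := fun i => tt (τ i) * u i ^ (p - 1)) hu
    (w' := fun k => tt (τ k) * u k ^ (p - 1) - if k = b then L * (tt (τ a) * u a ^ (p - 1)) else 0)
    fun _ _ => rfl
  have e2 := C0.conj2 ha hb hab (-(L * tt (τ a) * gg p (u a) (L * u b))) (u := u')
    (w := fun k => tt (τ k) * u k ^ (p - 1) - if k = b then L * (tt (τ a) * u a ^ (p - 1)) else 0)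
    (w' := fun i => tt (τ' i) * u' i ^ (p - 1)) fun k hk => by
      simp only [hu k hk, hτ k hk, hu a ha, hu b hb, if_true, hab.symm, if_false, add_zero]
      by_cases hka : k = a
      · subst hka
        simp only [if_true, hab, if_false, sub_zero]
        rw [add_pow_pred p]; ring
      · by_cases hkb : k = b
        · subst hkb
          simp only [if_true, hka, if_false, add_zero, map_sub, map_mul, map_pow, ← hL]
          have g1 := gg_mul p (u a) (L * u k)
          have g2 : L ^ p = L * L ^ (p - 1) := by rw [← pow_succ']; congr 1; omega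
          rw [mul_pow] at g1
          rw [g2]
          linear_combination (-(L * tt (τ a))) * g1
        · simp [hka, hkb]
  have va : (wl p T W).v (.inl a) = p - 2 := by simp [wl, ha]
  have vb : (wl p T W).v (.inl b) = p - 2 := by simp [wl, hb]
  have sL : ShA (wl p T W) (fun q => q = 0) L := ShA_C _ _
  unfold DD at h ⊢
  refine LK.conj (N := L • (xi a * io b)) ?_ ?_ ?_
  · rw [e1]
    refine LK.conj (N := (-(L * tt (τ a) * gg p (u a) (L * u b))) • (io a * io b)) ?_ ?_ ?_
    · rw [e2]; exact h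
    · rw [smul_mul_smul_comm, mul_assoc (io a), ← mul_assoc (io b), C0.ii b a hab.symm,
        neg_mul (io a * io b), mul_assoc (io a), C0.i2]
      simp
    · have sg : ShA (wl p T W) (fun q => q = 2 * p - 4) (gg p (u a) (L * u b)) := by
        refine ShA.sum _ _ fun m hm => ((h2 a ha).pow m).mul
          (((sL.mul (h2 b hb) (Δ'' := fun q => q = 2) (by rintro _ _ rfl rfl; rfl)).neg).pow _) ?_
        rintro _ _ rfl rfl
        have := Finset.mem_range.1 hm
        obtain ⟨r, hr⟩ : ∃ r, p = r + m + 2 := ⟨p - m - 2, by omega⟩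
        rw [show p - 1 - 1 - m = r by omega, hr]; push_cast; ring
      refine Sh.congr (Sh.comp (((sL.mul (ShA_tt rfl (τ a)) (Δ'' := fun q => q = 0)
        (by rintro _ _ rfl rfl; rfl)).mul sg (Δ'' := fun q => q = 2 * p - 4)
        (by rintro _ _ rfl rfl; ring)).neg)
        (Sh.comp (Sh_io _ a) (Sh_io _ b) (Δ'' := fun q => q = 4 - 2 * p) ?_) ?_) fun _ => rfl
      · rintro _ _ rfl rfl; rw [va, vb]; ring
      · rintro _ _ rfl rfl; ring
  · rw [smul_mul_smul_comm, mul_assoc (xi a), ← mul_assoc (io b), C0.ix b a hab.symm, neg_mul,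
      mul_neg, mul_assoc (xi a), ← mul_assoc (xi a), C0.x2]
    simp
  · refine Sh.congr (Sh.comp sL (Sh.comp (Sh_xi _ a) (Sh_io _ b) (Δ'' := fun q => q = 0) ?_) ?_)
      fun _ => rfl
    · rintro _ _ rfl rfl; rw [va, vb]; ring
    · rintro _ _ rfl rfl; ring

theorem lf_add_mul (c c' : E → K) (l : K) (W : Finset E) :
    (lf (fun j => c j + l * c' j) W : AA K ι E) = lf c W + tt (C l) * lf c' W := by
  unfold lf
  rw [Finset.mul_sum, ← Finset.sum_add_distrib]
  exact Finset.sum_congr rfl fun j _ => by simp only [map_add, map_mul]; ring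

def rowc (a : ι → E → K) (i : ι) (μ : ι → K) (B : Finset ι) : ι → E → K :=
  Function.update a i fun j => a i j + ∑ b ∈ B, μ b * a b j

theorem LK.transvs {p : ℕ} [hp : Fact p.Prime] [CharP K p] {T : Finset ι} {W : Finset E} {ν : ℤ}
    {G : MvPolynomial ι K → Prop} {i : ι} (hi : i ∈ T) (a : ι → E → K) (μ : ι → K)
    (τ : ι → MvPolynomial ι K) (B : Finset ι) (hB : ∀ b ∈ B, b ∈ T ∧ b ≠ i)
    (h : LK (wl p T W) ν G (DD p T (fun k => lf (rowc a i μ B k) W)
      fun k => τ k - if k ∈ B then C (μ k ^ p) * τ i else 0)) :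
    LK (wl p T W) ν G (DD p T (fun k => lf (a k) W) τ) := by
  induction B using Finset.induction_on with
  | empty => simpa [rowc] using h
  | insert b B hb ih =>
    have hb' := hB b (Finset.mem_insert_self _ _)
    have hiB : i ∉ B := fun e => (hB i (Finset.mem_insert_of_mem e)).2 rfl
    refine ih (fun k hk => hB k (Finset.mem_insert_of_mem hk))
      (LK.transv hi hb'.1 hb'.2.symm (μ b) (fun k _ => wl_lf p _ Finset.Subset.rfl _)
        (fun k _ => ?_) (fun k _ => ?_) h)
    · by_cases hk : k = i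
      · subst hk
        simp only [rowc, Function.update_self, if_true, Function.update_of_ne hb'.2]
        rw [← lf_add_mul]
        congr 1
        funext j
        rw [Finset.sum_insert hb]; ring
      · simp [rowc, hk]
    · by_cases hk : k = b
      · subst hk; simp [hb, hiB]
      · simp [hk]

theorem local_kill [IsAlgClosed K] [Fintype ι] [Fintype E] {p : ℕ} [hp : Fact p.Prime]
    [CharP K p] (T : Finset ι) (W : Finset E) (a : ι → E → K) (lam : ℤ)
    (H : ∀ i ∈ T, ∀ (μ : ι → K) (S W0 : Finset E), S ∪ W0 = W → Disjoint S W0 →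
      (∀ j ∈ W0, a i j + ∑ b ∈ T.erase i, μ b * a b j = 0) →
      ∀ ν < lam - S.card, Van p (T.erase i) W0 a ν) {ν : ℤ} (hν : ν < lam) {i : ι} (hi : i ∈ T) :
    LK (wl p T W) ν (fun r => ∃ N : ℕ, r = X i ^ N) (DD p T (fun k => lf (a k) W) X) := by
  classical
  intro z hz hc
  let J : Ideal (MvPolynomial ι K) :=
    { carrier := {r | ∃ v, DD p T (fun k => lf (a k) W) X v = r • z}
      add_mem' := by
        rintro r s ⟨v, hv⟩ ⟨v', hv'⟩
        exact ⟨v + v', by rw [map_add, hv, hv', add_smul]⟩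
      zero_mem' := ⟨0, by simp⟩
      smul_mem' := by
        rintro c r ⟨v, hv⟩
        exact ⟨c • v, by rw [End_smul, hv, smul_smul, smul_eq_mul]⟩ }
  have key : (X i : MvPolynomial ι K) ∈ J.radical := by
    rw [← vanishingIdeal_zeroLocus_eq_radical (K := K)]
    intro t ht
    by_contra hγ
    rw [aeval_X] at hγ
    have hμ : ∀ k, ∃ x : K, x ^ p = t k / t i := fun k =>
      IsAlgClosed.exists_pow_nat_eq _ hp.out.pos
    choose μ hμ using hμ
    let σ : MvPolynomial ι K →ₐ[K] MvPolynomial ι K := aeval fun k =>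
      if k = i then X i + C (t i) else X k + C (μ k ^ p) * (X i + C (t i))
    let ρ : MvPolynomial ι K →ₐ[K] MvPolynomial ι K := aeval fun k =>
      if k = i then X i - C (t i) else X k - C (μ k ^ p) * X i
    have hρσ : ρ.comp σ = AlgHom.id K _ := by
      refine algHom_ext fun k => ?_
      by_cases hk : k = i <;> simp [σ, ρ, hk]
    have hρσ' : ∀ f, ρ (σ f) = f := fun f => AlgHom.congr_fun hρσ f
    have hev : ∀ f, aeval t (ρ f) = constantCoeff f := by
      have : (aeval t).comp ρ = aeval (0 : ι → K) := by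
        refine algHom_ext fun k => ?_
        by_cases hk : k = i
        · simp [ρ, hk]
        · simp [ρ, hk, hμ k, hγ]
      intro f
      have := AlgHom.congr_fun this f
      simpa using this
    set c : E → K := fun j => a i j + ∑ b ∈ T.erase i, μ b * a b j with hc'
    have hSW : W.filter (fun j => c j ≠ 0) ∪ W.filter (fun j => c j = 0) = W := by
      ext j; by_cases h : c j = 0 <;> simp [h]
    have hdis : Disjoint (W.filter fun j => c j ≠ 0) (W.filter fun j => c j = 0) :=
      Finset.disjoint_filter.2 fun j _ h => h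
    have hV : ∀ ν < lam - (W.filter fun j => c j ≠ 0).card,
        Van p (T.erase i) (W.filter fun j => c j = 0) (rowc a i μ (T.erase i)) ν := by
      intro ν' hν'
      have := H i hi μ _ _ hSW hdis (fun j hj => (Finset.mem_filter.1 hj).2) ν' hν'
      unfold Van DD at this ⊢
      rwa [DG_congr (u' := fun k => lf (a k) (W.filter fun j => c j = 0))
        (w' := fun k => tt (X k) * lf (a k) (W.filter fun j => c j = 0) ^ (p - 1))
        (fun k hk => by simp [rowc, Finset.ne_of_mem_erase hk])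
        (fun k hk => by simp [rowc, Finset.ne_of_mem_erase hk])]
    have L0 := local0 (Finset.notMem_erase i T) (rowc a i μ (T.erase i))
      (S := W.filter fun j => c j ≠ 0) (W := W.filter fun j => c j = 0)
      (fun j hj => ⟨Finset.disjoint_left.1 hdis hj, by
        simpa [rowc] using (Finset.mem_filter.1 hj).2⟩)
      (fun j hj => by simpa [rowc] using (Finset.mem_filter.1 hj).2) hγ
      (fun k => σ (X k) - if k ∈ T.erase i then C (μ k ^ p) * σ (X i) else 0)
      (by simp [σ]) (fun k hk => by simp [σ, hk, Finset.ne_of_mem_erase hk]) _ hV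
      (ν := ν) (by omega)
    rw [Finset.insert_erase hi, hSW] at L0
    obtain ⟨r, hr, v, hv⟩ := LK.transvs hi a μ (fun k => σ (X k)) (T.erase i)
      (fun b hb => ⟨Finset.mem_of_mem_erase hb, Finset.ne_of_mem_erase hb⟩) L0 (smap σ z)
      (hz.smap rfl σ) (by rw [← smap_DD, hc, map_zero])
    have := congrArg (smap ρ) hv
    rw [smap_DD, smap_smul, show smap ρ (smap σ z) = z from XX.ext fun A => hρσ' _] at this
    simp only [hρσ'] at this
    have h0 := ht (ρ r) ⟨_, this⟩
    rw [hev, hr] at h0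
    exact one_ne_zero h0
  obtain ⟨N, hN⟩ := key
  exact ⟨_, ⟨N, rfl⟩, hN⟩

end

end Pool.Agent.MP_16de82_co.h72
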