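import Mathlib.Tactic.Monotonicity.Lemmas
import Pool.Agent.MP_16de82_co.h72.Local

/-! From local vanishing to the nonvanishing of the top product. -/

namespace Pool.Agent.MP_16de82_co.h72

open Finset MvPolynomial

noncomputable section

variable {K : Type*} [Field K] {ι E : Type*} [LinearOrder ι] [DecidableEq E]

def DU (p : ℕ) (T : Finset ι) (W : Finset E) (a : ι → E → K) (U : Finset ι) :
    Module.End (AA K ι E) (XX K ι E) :=
  DD p T (fun k => lf (a k) W) fun k => if k ∈ U then 0 else X k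

def th (p : ℕ) (W : Finset E) (a : ι → E → K) (i : ι) : Module.End (AA K ι E) (XX K ι E) :=
  (lf (a i) W ^ (p - 1) : AA K ι E) • io i

def wU (U : Finset ι) : Wt ι E := ⟨fun i => if i ∈ U then 1 else 0, 0⟩

def wj (T : Finset ι) : Wt ι E :=
  ⟨fun i => if i ∈ T then 2 else 0, Sum.elim (fun i => if i ∈ T then 1 else 0) 0⟩

variable {p : ℕ} {T U : Finset ι} {W : Finset E} {a : ι → E → K} {i : ι}

theorem DU_empty : DU p T W a ∅ = DD p T (fun k => lf (a k) W) X := by simp [DU]

theorem DU_split (hi : i ∈ T) (hU : i ∉ U) (z : XX K ι E) :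
    DU p T W a U z = DU p T W a (insert i U) z + (X i : MvPolynomial ι K) • th p W a i z := by
  unfold DU
  rw [← Finset.insert_erase hi, DD_insert p (Finset.notMem_erase i T),
    DD_insert p (Finset.notMem_erase i T), ← tt_smul]
  unfold DD
  rw [DG_congr (T := T.erase i) (fun _ _ => rfl)
    (w' := fun k => tt (if k ∈ insert i U then 0 else X k) * lf (a k) W ^ (p - 1))
    fun k hk => by simp [Finset.ne_of_mem_erase hk]]
  simp only [hU, if_false, Finset.mem_insert_self, if_true, map_zero, th, LinearMap.smul_apply]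
  module

theorem lf_deg0 {w : Wt ι E} (h : ∀ j, w.v (.inr j) = 0) (c : E → K) (W : Finset E) :
    ShA w (fun q => q = 0) (lf c W : AA K ι E) := ShA_lf c W fun j _ _ => h j

theorem DU_wl (hp : 1 ≤ p) : Sh (wl p T W) (fun q => q = p) (DU p T W a U) :=
  wl_DD hp Finset.Subset.rfl _ _ _ fun _ _ => wl_lf p _ Finset.Subset.rfl _

theorem DU_wU (hp : 1 ≤ p) : Sh (wU U) (fun q => q = 0) (DU p T W a U) :=
  Sh_DD hp 0 0 T _ _ (fun _ _ => lf_deg0 (fun _ => rfl) _ _) (fun _ _ => by simp [wU])
    fun k _ => by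
      by_cases h : k ∈ U
      · simpa [h] using ShA.zero
      · simp only [h, if_false]
        exact (ShA_X _ k).mono (by rintro _ rfl; simp [wU, h])

theorem DU_wj (hp : 1 ≤ p) : Sh (wj T) (fun q => q = 1) (DU p T W a U) :=
  Sh_DD hp 1 0 T _ _ (fun _ _ => lf_deg0 (fun _ => rfl) _ _) (fun k hk => by simp [wj, hk])
    fun k hk => by
      by_cases h : k ∈ U
      · simpa [h] using ShA.zero
      · simp only [h, if_false]
        exact (ShA_X _ k).mono (by rintro _ rfl; simp [wj, hk])

theorem th_wl (hp : 1 ≤ p) (hi : i ∈ T) : Sh (wl p T W) (fun q => q = p) (th p W a i) :=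
  Sh.congr (Sh.comp ((wl_lf p T Finset.Subset.rfl (a i)).pow (p - 1)) (Sh_io _ i)
    (by rintro _ _ rfl rfl; simp [wl, hi, hp]; ring)) fun _ => rfl

theorem th_wU : Sh (wU U) (fun q => q = 0) (th p W a i) :=
  Sh.congr (Sh.comp ((lf_deg0 (fun _ => rfl) (a i) W).pow (p - 1)) (Sh_io _ i)
    (by rintro _ _ rfl rfl; simp [wU])) fun _ => rfl

theorem th_wj (hi : i ∈ T) : Sh (wj T) (fun q => q = -1) (th p W a i) :=
  Sh.congr (Sh.comp ((lf_deg0 (fun _ => rfl) (a i) W).pow (p - 1)) (Sh_io _ i)
    (by rintro _ _ rfl rfl; simp [wj, hi])) fun _ => rfl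

theorem X_sh (w : Wt ι E) (i : ι) (N : ℕ) :
    Sh w (fun q => q = N * w.t i) fun z : XX K ι E => (X i ^ N : MvPolynomial ι K) • z :=
  Sh.congr ((ShA_X w i).pow N) fun z => by rw [← map_pow, tt_smul]

theorem X_sh1 (w : Wt ι E) (i : ι) :
    Sh w (fun q => q = w.t i) fun z : XX K ι E => (X i : MvPolynomial ι K) • z := ShA_X w i

omit [LinearOrder ι] [DecidableEq E] in
theorem X_cancel (i : ι) {z : XX K ι E} (h : (X i : MvPolynomial ι K) • z = 0) : z = 0 :=
  XX.ext fun A => by
    have := congrFun h A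
    simpa using this

omit [DecidableEq E] in
theorem wU_ge (U : Finset ι) (z : XX K ι E) : Ge (wU U) 0 z :=
  ge_zero (fun i => by simp only [wU]; split_ifs <;> omega) (fun _ => le_rfl) z

omit [DecidableEq E] in
theorem wj_ge (T : Finset ι) (z : XX K ι E) : Ge (wj T) 0 z :=
  ge_zero (fun i => by simp only [wj]; split_ifs <;> omega)
    (by rintro (k | k) <;> simp only [wj, Sum.elim_inl, Sum.elim_inr, Pi.zero_apply, le_refl]
        split_ifs <;> omega) z

theorem pr_X (hi : i ∈ U) (x : XX K ι E) : pr (wU U) 0 ((X i : MvPolynomial ι K) • x) = 0 :=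
  pr_zero (X_sh1 _ i _ _ (by rintro q _ h rfl; simp only [wU, hi, if_true]; omega) _ (wU_ge U x))

omit [LinearOrder ι] [DecidableEq E] in
theorem Sh.hm_ge {w : Wt ι E} {L : XX K ι E → XX K ι E} {z : XX K ι E} {d k m : ℤ}
    (h : Sh w (fun q => q = d) L) (hz : Ge w k z) (e : m ≤ k + d) : Ge w m (L z) :=
  (h.mono fun _ h => h.ge).ge hz e

theorem lift_ge {w : Wt ι E} {D : Module.End (AA K ι E) (XX K ι E)} {d k : ℤ}
    (hD : Sh w (fun q => q = d) D) (h0 : ∀ z : XX K ι E, Ge w 0 z) {x : XX K ι E}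
    (hx : Ge w (k + d) x) (hv : ∃ v, D v = x) : ∃ v, Ge w k v ∧ D v = x := by
  have : ∀ n : ℕ, ∃ v, Ge w (min n k) v ∧ D v = x := by
    intro n
    induction n with
    | zero => exact hv.imp fun v h => ⟨(h0 v).mono fun q hq => by omega, h⟩
    | succ n ih =>
      obtain ⟨v, h1, h2⟩ := ih
      by_cases hk : k ≤ n
      · exact ⟨v, h1.mono fun q hq => by omega, h2⟩
      · refine ⟨v - pr w n v, (h1.sub_pr n).mono fun q hq => by push_cast; omega, ?_⟩
        rw [map_sub, ← hD.pr (map_add D) rfl, h2, pr_zero (hx.mono fun q hq => by omega), sub_zero]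
  exact (this k.toNat).imp fun v h => ⟨h.1.mono fun q hq => by omega, h.2⟩

variable [Fintype ι]

omit [DecidableEq E] in
theorem weight_ite (U : Finset ι) (c : ℤ) (d : ι →₀ ℕ) :
    Finsupp.weight (fun i => if i ∈ U then c else 0) d = c * ∑ k ∈ U, (d k : ℤ) := by
  rw [Finsupp.weight_apply, Finsupp.sum_fintype _ _ (by simp), Finset.mul_sum]
  simp [mul_comm]

omit [DecidableEq E] in
theorem wU_wt (U : Finset ι) (d : ι →₀ ℕ) (A : Finset (ι ⊕ E)) :
    (wU U).wt d A = ∑ k ∈ U, (d k : ℤ) := by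
  simp [Wt.wt, wU, weight_ite]

omit [DecidableEq E] in
theorem fr_mono (hU : i ∉ U) {z : XX K ι E} (h : Hm (wU (insert i U)) 0 z) : Hm (wU U) 0 z := by
  intro A d hd
  have := h A d hd
  rw [wU_wt, Finset.sum_insert hU] at this
  have h2 : 0 ≤ ∑ k ∈ U, (d k : ℤ) := by positivity
  rw [wU_wt]; omega

omit [DecidableEq E] in
theorem fr_split (hU : i ∉ U) {v : XX K ι E} (h : Hm (wU U) 0 v) :
    ∃ v1 : XX K ι E, v = pr (wU (insert i U)) 0 v + (X i : MvPolynomial ι K) • v1 := by
  refine ⟨fun A => divMonomial (v A) (Finsupp.single i 1), XX.ext fun A =>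
    MvPolynomial.ext _ _ fun d => ?_⟩
  rw [XX.add_apply, XX.smul_apply, coeff_add, coeff_pr, coeff_X_mul', coeff_divMonomial, wU_wt,
    Finset.sum_insert hU]
  have h2 : 0 ≤ ∑ k ∈ U, (d k : ℤ) := by positivity
  by_cases hi : i ∈ d.support
  · have := Finsupp.mem_support_iff.1 hi
    rw [if_pos hi, if_neg (by omega), zero_add, add_tsub_cancel_of_le]
    rw [Finsupp.single_le_iff]; omega
  · rw [if_neg hi, add_zero]
    have h3 := Finsupp.notMem_support_iff.1 hi
    split_ifs with h4
    · rfl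
    · by_contra h5
      have := h A d h5
      rw [wU_wt] at this
      omega

variable [Fintype E]

theorem base (hp : 2 ≤ p) {z : XX K ι E} {ν j : ℤ} (h1 : Hm (wl p T W) ν z) (h2 : Hm (wU T) 0 z)
    (h3 : Ge (wj T) j z) (hz : z ≠ 0) : ((p : ℤ) - 2) * j ≤ ν ∧ j ≤ T.card := by
  by_contra hcon
  refine hz (Supp.eq_zero (w := wU T) fun A d hd => hcon ?_)
  have e1 := h1 A d hd
  have e2 := h2 A d hd
  have e3 := h3 A d hd
  rw [wU_wt] at e2
  have e4 : (wj T).wt d A = ∑ k ∈ A, (wj (E := E) T).v k := by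
    simp only [Wt.wt, wj, weight_ite, e2]; simp
  have e5 : ((p : ℤ) - 2) * ∑ k ∈ A, (wj (E := E) T).v k ≤ (wl p T W).wt d A := by
    simp only [Wt.wt, wl, Finsupp.weight_apply, Pi.zero_apply, smul_zero, Finsupp.sum_fun_zero,
      zero_add]
    rw [Finset.mul_sum]
    refine Finset.sum_le_sum ?_
    rintro (k | k) _ <;> simp only [wj, Sum.elim_inl, Sum.elim_inr, Pi.zero_apply] <;>
      split_ifs <;> omega
  have e6 : ∑ k ∈ A, (wj (E := E) T).v k ≤ ∑ k, (wj (E := E) T).v k := by
    refine Finset.sum_le_sum_of_subset_of_nonneg (Finset.subset_univ _) ?_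
    rintro (k | k) _ _ <;> simp only [wj, Sum.elim_inl, Sum.elim_inr, Pi.zero_apply, le_refl]
    split_ifs <;> omega
  have e7 : ∑ k, (wj (E := E) T).v k = T.card := by simp [wj, Fintype.sum_sum_type]
  have hp' : (0 : ℤ) ≤ p - 2 := by omega
  refine ⟨?_, by omega⟩
  have := mul_le_mul_of_nonneg_left (e4 ▸ e3) hp'
  omega

section
variable [hp : Fact p.Prime] [CharP K p]

omit [Fintype ι] [Fintype E] in
theorem DU_sq (z : XX K ι E) : DU p T W a U (DU p T W a U z) = 0 :=
  DD_sq hp.out.one_le _ _ _ (fun _ _ => lf_pow p _ _) z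

omit [Fintype ι] [Fintype E] in
theorem th_cocycle (hi : i ∈ T) (hU : i ∉ U) {z : XX K ι E}
    (h : DU p T W a (insert i U) z = 0) : DU p T W a U (th p W a i z) = 0 := by
  have := DU_sq (p := p) (T := T) (W := W) (a := a) (U := U) z
  rw [DU_split hi hU z, h, zero_add, End_smul] at this
  exact X_cancel i this

def KillHyp (p : ℕ) (T : Finset ι) (W : Finset E) (a : ι → E → K) (lam : ℤ) : Prop :=
  ∀ ν < lam, ∀ i ∈ T,
    LK (wl p T W) ν (fun r => ∃ N : ℕ, r = X i ^ N) (DD p T (fun k => lf (a k) W) X)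

omit [Fintype E] in
theorem kill {lam : ℤ} (hK : KillHyp p T W a lam) {k : ι} (hk : k ∈ T) (U : Finset ι) :
    U ⊆ T → k ∉ U → ∀ ν, ν + p * U.card < lam → ∀ z, Hm (wl p T W) ν z → Hm (wU U) 0 z →
      DU p T W a U z = 0 → ∃ (N : ℕ) (v : XX K ι E),
        DU p T W a U v = (X k ^ N : MvPolynomial ι K) • z := by
  have hp1 := hp.out.one_le
  induction U using Finset.induction_on with
  | empty =>
    intro _ _ ν hν z h1 _ h3
    rw [DU_empty] at h3 ⊢
    obtain ⟨_, ⟨N, rfl⟩, v, hv⟩ := hK ν (by simpa using hν) k hk z h1 h3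
    exact ⟨N, v, hv⟩
  | insert i U hU ih =>
    intro hT hkU ν hν z h1 h2 h3
    have hi : i ∈ T := hT (Finset.mem_insert_self _ _)
    have hkU' : k ∉ U := fun h => hkU (Finset.mem_insert_of_mem h)
    have ih' := ih ((Finset.subset_insert _ _).trans hT) hkU'
    rw [Finset.card_insert_of_notMem hU] at hν
    push_cast at hν
    have hp0 : (0 : ℤ) ≤ p := by positivity
    obtain ⟨N, v, hv⟩ := ih' (ν + p) (by linarith) _ ((th_wl hp1 hi).hm h1 rfl)
      (th_wU.hm (fr_mono hU h2) rfl) (th_cocycle hi hU h3)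
    have hv' : DU p T W a U (pr (wl p T W) ν (pr (wU U) 0 v))
        = (X k ^ N : MvPolynomial ι K) • th p W a i z := by
      rw [← (DU_wl hp1).pr (map_add _) rfl, ← (DU_wU hp1).pr (map_add _) (m := 0) rfl, hv,
        pr_self ((X_sh _ k N).hm (th_wU.hm (fr_mono hU h2) rfl) (by simp [wU, hkU'])),
        pr_self ((X_sh _ k N).hm ((th_wl hp1 hi).hm h1 rfl) (by simp [wl]))]
    obtain ⟨N', v', hv2⟩ := ih' ν (by linarith)
      ((X k ^ N : MvPolynomial ι K) • z
        - (X i : MvPolynomial ι K) • pr (wl p T W) ν (pr (wU U) 0 v))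
      (((X_sh _ k N).hm h1 (by simp [wl])).sub ((X_sh1 _ i).hm (pr_hm _ _ _) (by simp [wl])))
      (((X_sh _ k N).hm (fr_mono hU h2) (by simp [wU, hkU'])).sub
        ((X_sh1 _ i).hm ((pr_hm _ _ _).pr _ _) (by simp [wU, hU])))
      (by rw [map_sub, End_smul, End_smul, hv', DU_split hi hU z, h3, zero_add, smul_comm, sub_self])
    refine ⟨N' + N, pr (wU (insert i U)) 0 v', ?_⟩
    have := congrArg (pr (wU (insert i U)) 0) hv2
    rw [DU_split hi hU, smul_sub, smul_comm _ (X i), smul_smul, ← pow_add, map_add, map_sub,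
      pr_X (Finset.mem_insert_self _ _), pr_X (Finset.mem_insert_self _ _),
      (DU_wU hp1).pr (map_add _) (k := 0) (m := 0) rfl,
      pr_self ((X_sh _ k _).hm h2 (by simp only [wU, hkU, if_false]; simp))] at this
    simpa using this

theorem soc {lam : ℤ} (hK : KillHyp p T W a lam) (m : ℕ) :
    ∀ U ⊆ T, U.card + m = T.card → ∀ (ν j : ℤ) (z : XX K ι E), ν + p * U.card < lam →
      Hm (wl p T W) ν z → Hm (wU U) 0 z → Ge (wj T) j z → DU p T W a U z = 0 →
      (¬∃ v, DU p T W a U v = z) → p * m + ((p : ℤ) - 2) * (j + m) ≤ ν ∧ j + m ≤ T.card := by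
  have hp1 := hp.out.one_le
  induction m with
  | zero =>
    intro U hU hc ν j z _ h1 h2 h3 _ h5
    obtain rfl := Finset.eq_of_subset_of_card_le hU (by omega)
    simpa using base hp.out.two_le h1 h2 h3 fun h => h5 ⟨0, by simp [h]⟩
  | succ m ih =>
    intro U hU hc ν j z hν h1 h2 h3 h4 h5
    obtain ⟨i, hi, hiU⟩ := Finset.exists_mem_notMem_of_card_lt_card (s := U) (t := T) (by omega)
    obtain ⟨N, hN⟩ := kill hK hi U hU hiU ν hν z h1 h2 h4
    have : ∃ n : ℕ, (¬∃ v, DU p T W a U v = (X i ^ n : MvPolynomial ι K) • z) ∧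
        ∃ v, DU p T W a U v = (X i ^ (n + 1) : MvPolynomial ι K) • z := by
      induction N with
      | zero => exact absurd (by simpa using hN) h5
      | succ N ihN =>
        by_cases h : ∃ v, DU p T W a U v = (X i ^ N : MvPolynomial ι K) • z
        · exact ihN h
        · exact ⟨N, h, hN⟩
    obtain ⟨n, g5, g6⟩ := this
    rw [pow_succ', mul_smul] at g6
    have g1 := (X_sh _ i n).hm h1 (m := ν) (by simp [wl])
    have g2 := (X_sh _ i n).hm h2 (m := 0) (by simp [wU, hiU])
    have g3 := (X_sh _ i n).hm_ge h3 (m := j) (by simp [wj, hi])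
    generalize (X i ^ n : MvPolynomial ι K) • z = z' at g1 g2 g3 g5 g6
    obtain ⟨v, v1, v2⟩ := lift_ge (k := j + 1) (DU_wj hp1) (wj_ge T)
      ((X_sh1 _ i).hm_ge g3 (by simp only [wj, hi, if_true]; omega)) g6
    have v3 : DU p T W a U (pr (wU U) 0 (pr (wl p T W) (ν - p) v))
        = (X i : MvPolynomial ι K) • z' := by
      rw [← (DU_wU hp1).pr (map_add _) (m := 0) rfl, ← (DU_wl hp1).pr (map_add _) (m := ν) (by ring),
        v2, pr_self ((X_sh1 _ i).hm g1 (by simp [wl])),
        pr_self ((X_sh1 _ i).hm g2 (by simp [wU, hiU]))]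
    have v4 := ((v1.pr (wl p T W) (ν - p)).pr (wU U) 0).pr (wU (insert i U)) 0
    have v5 := ((pr_hm (wl p T W) (ν - p) v).pr (wU U) 0).pr (wU (insert i U)) 0
    obtain ⟨y, hy⟩ := fr_split hiU (pr_hm (wU U) 0 (pr (wl p T W) (ν - p) v))
    generalize pr (wU U) 0 (pr (wl p T W) (ν - p) v) = x at v3 v4 v5 hy
    have v6 : DU p T W a (insert i U) (pr (wU (insert i U)) 0 x) = 0 := by
      have := congrArg (pr (wU (insert i U)) 0) v3
      rwa [DU_split hi hiU, map_add, pr_X (Finset.mem_insert_self _ _),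
        pr_X (Finset.mem_insert_self _ _), (DU_wU hp1).pr (map_add _) (k := 0) (m := 0) rfl,
        add_zero] at this
    have v7 := pr_hm (wU (insert i U)) 0 x
    generalize pr (wU (insert i U)) 0 x = x0 at v4 v5 v6 v7 hy
    have v8 := DU_split (p := p) (W := W) (a := a) hi hiU x0
    rw [v6, zero_add] at v8
    have := ih (insert i U) (Finset.insert_subset hi hU)
      (by rw [Finset.card_insert_of_notMem hiU]; omega) (ν - p) (j + 1) x0
      (by rw [Finset.card_insert_of_notMem hiU]; push_cast; linarith) v5 v7 v4 v6 (by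
        rintro ⟨s, hs⟩
        refine g5 ⟨y - th p W a i s, ?_⟩
        have e1 := DU_sq (p := p) (T := T) (W := W) (a := a) (U := U) s
        rw [DU_split hi hiU s, hs, map_add, End_smul] at e1
        rw [hy, map_add, End_smul] at v3
        rw [← sub_eq_zero]
        refine X_cancel i ?_
        rw [map_sub]
        linear_combination (norm := module) v3 - e1)
    push_cast
    constructor <;> linarith [this.1, this.2]

theorem van_of_kill {lam : ℤ} (hK : KillHyp p T W a lam) (hl : lam ≤ 2 * (p - 1) * T.card)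
    {ν : ℤ} (hν : ν < lam) : Van p T W a ν := by
  intro z h1 h2
  by_contra h
  rw [← DU_empty] at h h2
  have := (soc hK T.card ∅ (Finset.empty_subset _) (by simp) ν 0 z (by simpa using hν) h1
    (fun A d _ => by simp [wU_wt]) (wj_ge T z) h2 h).1
  linarith

theorem chain (hK : KillHyp p T W a (2 * (p - 1) * T.card - p + 1)) (V : Finset ι) :
    V ⊆ T → ∃ x z : XX K ι E, z = (∏ i ∈ V, lf (a i) W ^ (p - 1) : AA K ι E) • x ∧
      Hm (wl p T W) ((p - 2) * T.card + p * V.card) z ∧ Hm (wU (T \ V)) 0 z ∧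
      Ge (wj T) (T.card - V.card) z ∧ DU p T W a (T \ V) z = 0 ∧
      ¬∃ v, DU p T W a (T \ V) v = z := by
  have hp1 := hp.out.one_le
  have hp2 := hp.out.two_le
  induction V using Finset.induction_on with
  | empty =>
    intro _
    let A0 : Finset (ι ⊕ E) := T.map Function.Embedding.inl
    let e : XX K ι E := Pi.single A0 1
    have he : ∀ w : Wt ι E, Hm w (∑ k ∈ T, w.v (.inl k)) e := by
      intro w A d hd
      by_cases h : A = A0
      · subst h
        simp only [e, Pi.single_eq_same, coeff_one] at hd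
        obtain rfl : 0 = d := by by_contra h; simp [h] at hd
        simp [Wt.wt, A0]
      · simp [e, h] at hd
    have e1 : Hm (wl p T W) ((p - 2) * T.card) e := by
      convert he (wl p T W) using 1
      rw [Finset.sum_congr rfl (g := fun _ => (p : ℤ) - 2) fun k hk => by simp [wl, hk]]
      rw [Finset.sum_const, nsmul_eq_mul, mul_comm]
    have e2 : Hm (wU T) 0 e := by simpa [wU] using he (wU T)
    have e3 : Ge (wj T) T.card e := by
      refine (he (wj T)).mono ?_
      rintro _ rfl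
      rw [Finset.sum_congr rfl (g := fun _ => (1 : ℤ)) fun k hk => by simp [wj, hk]]
      simp
    refine ⟨e, e, by simp, by simpa using e1, by simpa using e2, by simpa using e3, ?_, ?_⟩
    · by_contra h
      rw [Finset.sdiff_empty] at h
      have := (base hp2 ((DU_wl hp1).hm e1 rfl) ((DU_wU hp1).hm e2 rfl)
        ((DU_wj hp1).hm_ge e3 le_rfl) h).2
      omega
    · rw [Finset.sdiff_empty]
      intro h
      obtain ⟨v, v1, v2⟩ := lift_ge (k := T.card - 1) (DU_wj hp1) (wj_ge T) (by simpa using e3) h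
      have v3 : DU p T W a T (pr (wU T) 0 (pr (wl p T W) ((p - 2) * T.card - p) v)) = e := by
        rw [← (DU_wU hp1).pr (map_add _) (m := 0) rfl,
          ← (DU_wl hp1).pr (map_add _) (m := (p - 2) * T.card) (by ring), v2, pr_self e1,
          pr_self e2]
      have := (base hp2 ((pr_hm (wl p T W) _ v).pr (wU T) 0) (pr_hm _ _ _) ((v1.pr _ _).pr _ _)
        (fun h0 => by
          rw [h0, map_zero] at v3
          have := congrFun v3 A0
          simp [e] at this)).1
      linarith
  | insert i V hV ih =>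
    intro hT
    have hi : i ∈ T := hT (Finset.mem_insert_self _ _)
    obtain ⟨x, z, z0, z1, z2, z3, z4, z5⟩ := ih ((Finset.subset_insert _ _).trans hT)
    have hU : T \ V = insert i (T \ insert i V) := by
      ext k; by_cases h : k = i <;> simp [h, hi, hV]
    have hcard : (T \ insert i V).card + (V.card + 1) = T.card := by
      rw [← Finset.card_insert_of_notMem hV]; exact Finset.card_sdiff_add_card_eq_card hT
    have hiU : i ∉ T \ insert i V := by simp
    have hUT : T \ insert i V ⊆ T := Finset.sdiff_subset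
    rw [hU] at z2 z4 z5
    rw [Finset.card_insert_of_notMem hV, Finset.prod_insert hV]
    generalize T \ insert i V = U at *
    have t1 := (th_wl (a := a) hp1 hi).hm z1 rfl
    have t2 := (th_wU (p := p) (W := W) (a := a) (i := i)).hm (fr_mono hiU z2) rfl
    have t3 := (th_wj (p := p) (W := W) (a := a) hi).hm_ge z3 le_rfl
    refine ⟨io i x, th p W a i z, ?_, t1.mono ?_, by simpa using t2, t3.mono ?_,
      th_cocycle hi hiU z4, fun h => z5 ?_⟩
    · rw [z0, th, LinearMap.smul_apply, map_smul, mul_smul]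
    · rintro _ rfl; push_cast; ring
    · intro q hq; push_cast; omega
    · obtain ⟨v, v1, v2⟩ := lift_ge (k := T.card - V.card - 2) (DU_wj hp1) (wj_ge T)
        (t3.mono fun q hq => by omega) h
      have v3 : DU p T W a U (pr (wU U) 0 (pr (wl p T W) ((p - 2) * T.card + p * V.card) v))
          = th p W a i z := by
        rw [← (DU_wU hp1).pr (map_add _) (m := 0) rfl, ← (DU_wl hp1).pr (map_add _) rfl, v2,
          pr_self t1, pr_self (by simpa using t2)]
      have v4 := (v1.pr (wl p T W) ((p - 2) * T.card + p * V.card)).pr (wU U) 0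
      have v5 := (pr_hm (wl p T W) ((p - 2) * T.card + p * V.card) v).pr (wU U) 0
      have v6 := pr_hm (wU U) 0 (pr (wl p T W) ((p - 2) * T.card + p * V.card) v)
      generalize pr (wU U) 0 (pr (wl p T W) ((p - 2) * T.card + p * V.card) v) = s at v3 v4 v5 v6
      have hc' : (U.card : ℤ) + (V.card + 1) = T.card := by exact_mod_cast hcard
      by_contra hcon
      have := (soc hK (V.card + 1) U hUT hcard _ (T.card - V.card)
        (z - (X i : MvPolynomial ι K) • s) (by rw [← hc']; ring_nf; omega)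
        (z1.sub ((X_sh1 _ i).hm v5 (by simp [wl])))
        ((fr_mono hiU z2).sub ((X_sh1 _ i).hm v6 (by simp [wU, hiU])))
        (z3.sub ((X_sh1 _ i).hm_ge v4 (by simp [wj, hi])))
        (by rw [map_sub, End_smul, v3, DU_split hi hiU z, z4, zero_add, sub_self]) (by
          rintro ⟨y, hy⟩
          have := congrArg (pr (wU (insert i U)) 0) hy
          rw [DU_split hi hiU, map_add, map_sub, pr_X (Finset.mem_insert_self _ _),
            pr_X (Finset.mem_insert_self _ _), (DU_wU hp1).pr (map_add _) (k := 0) (m := 0) rfl,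
            pr_self z2, add_zero, sub_zero] at this
          exact hcon ⟨_, this⟩)).2
      push_cast at this
      omega

theorem sigma_ne_zero (hK : KillHyp p T W a (2 * (p - 1) * T.card - p + 1)) :
    (∏ i ∈ T, lf (a i) W ^ (p - 1) : AA K ι E) ≠ 0 := by
  intro h
  obtain ⟨x, z, z0, -, -, -, -, z5⟩ := chain hK T Finset.Subset.rfl
  exact z5 ⟨0, by rw [z0, h]; simp⟩

end

end

end Pool.Agent.MP_16de82_co.h72
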