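import Mathlib.Algebra.Field.ZMod
import Mathlib.FieldTheory.IsAlgClosed.AlgebraicClosure
import Mathlib.LinearAlgebra.Matrix.Permanent
import Pool.Agent.MP_16de82_co.h72.Global

/-! The induction on the rows, the expansion of the top product and the main theorem. -/

namespace Pool.Agent.MP_16de82_co.h72

open Finset MvPolynomial

noncomputable section

variable {K : Type*} [Field K] {ι E : Type*} [LinearOrder ι] [DecidableEq E]

def rk (a : ι → E → K) (T : Finset ι) (W : Finset E) : ℕ :=
  Module.finrank K (Submodule.span K ((fun i j => if j ∈ W then a i j else 0) '' (T : Set ι)))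

omit [LinearOrder ι] in
theorem rk_le (a : ι → E → K) (T : Finset ι) (W : Finset E) : rk a T W ≤ T.card := by
  classical
  unfold rk
  rw [← Finset.coe_image]
  exact (finrank_span_finset_le_card _).trans Finset.card_image_le

theorem rk_erase [Fintype E] (a : ι → E → K) {T : Finset ι} (i : ι) (μ : ι → K) {W : Finset E}
    (h : ∀ j ∈ W, a i j + ∑ b ∈ T.erase i, μ b * a b j = 0) : rk a T W ≤ rk a (T.erase i) W := by
  refine Submodule.finrank_mono (Submodule.span_le.2 ?_)
  rintro _ ⟨k, hk, rfl⟩
  by_cases hki : k = i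
  · subst hki
    have : (fun j => if j ∈ W then a k j else 0)
        = ∑ b ∈ T.erase k, (-μ b) • fun j => if j ∈ W then a b j else 0 := by
      funext j
      rw [Finset.sum_apply]
      by_cases hj : j ∈ W
      · simp only [hj, if_true, Pi.smul_apply, smul_eq_mul, neg_mul, Finset.sum_neg_distrib]
        linear_combination h j hj
      · simp [hj]
    rw [SetLike.mem_coe]
    simp only [this]
    exact Submodule.sum_mem _ fun b hb => Submodule.smul_mem _ _
      (Submodule.subset_span ⟨b, hb, rfl⟩)
  · exact Submodule.subset_span ⟨k, by simpa [hki] using hk, rfl⟩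

theorem kill_of_rk [IsAlgClosed K] [Fintype ι] [Fintype E] {p : ℕ} [hp : Fact p.Prime]
    [CharP K p] (a : ι → E → K) (T : Finset ι) : ∀ (W : Finset E) (lam : ℤ),
    (∀ W' ⊆ W, lam ≤ (W \ W').card + 2 * (p - 1) * (rk a T W' : ℤ)) → KillHyp p T W a lam := by
  have hp1 : (0 : ℤ) ≤ 2 * (p - 1) := by have := hp.out.one_le; omega
  induction T using Finset.strongInduction with
  | H T ih =>
    intro W lam h ν hν i hi
    refine local_kill T W a lam (fun k hk μ S W0 hSW hdis hrel ν' hν' => ?_) hν hi
    have h' : ∀ W' ⊆ W0, lam - S.card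
        ≤ (W0 \ W').card + 2 * (p - 1) * (rk a (T.erase k) W' : ℤ) := by
      intro W' hW'
      have h1 := h W' (hW'.trans (hSW ▸ Finset.subset_union_right))
      have h2 : (W \ W').card ≤ S.card + (W0 \ W').card := by
        rw [← hSW, Finset.union_sdiff_distrib]
        exact (Finset.card_union_le _ _).trans
          (Nat.add_le_add_right (Finset.card_le_card Finset.sdiff_subset) _)
      have h3 : (rk a T W' : ℤ) ≤ rk a (T.erase k) W' := by
        exact_mod_cast rk_erase a k μ fun j hj => hrel j (hW' hj)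
      have h4 := mul_le_mul_of_nonneg_left h3 hp1
      omega
    refine van_of_kill (ih _ (Finset.erase_ssubset hk) W0 _ h') ?_ hν'
    have h1 := h' W0 Finset.Subset.rfl
    have h3 : (rk a (T.erase k) W0 : ℤ) ≤ (T.erase k).card := Int.ofNat_le.2 (rk_le a (T.erase k) W0)
    have h4 := mul_le_mul_of_nonneg_left h3 hp1
    simp only [Finset.sdiff_self, Finset.card_empty, Nat.cast_zero, zero_add] at h1
    omega

theorem exists_perm {I : Type*} [Fintype I] [DecidableEq I] (b : I → E → K) (W : Finset E)
    (h : (∏ x : I, lf (b x) W : AA K ι E) ≠ 0) :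
    ∃ f : I ↪ E, (∀ y, f y ∈ W) ∧ (Matrix.of fun x y => b x (f y)).permanent ≠ 0 := by
  by_contra hcon
  push Not at hcon
  apply h
  unfold lf
  rw [Finset.prod_univ_sum, ← Finset.sum_fiberwise_of_maps_to (t := W.powerset)
    (g := fun g : I → E => Finset.univ.image g) (fun g hg => by
      rw [Finset.mem_powerset, Finset.image_subset_iff]
      exact fun x _ => Fintype.mem_piFinset.1 hg x)]
  refine Finset.sum_eq_zero fun S _ => ?_
  by_cases hex : ∃ g ∈ (Fintype.piFinset fun _ : I => W).filter
      (fun g : I → E => Finset.univ.image g = S), Function.Injective g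
  · obtain ⟨g0, hg0, hinj⟩ := hex
    rw [Finset.mem_filter, Fintype.mem_piFinset] at hg0
    have h0 := hcon ⟨g0, hinj⟩ hg0.1
    rw [← Matrix.permanent_transpose] at h0
    rw [← Finset.sum_bij (s := (Finset.univ : Finset (Equiv.Perm I)))
      (f := fun π => ∏ x, (tt (C (b x (g0 (π x)))) * yy (g0 (π x)) : AA K ι E))
      (fun π _ => g0 ∘ π) ?_ ?_ ?_ fun _ _ => rfl]
    · have : ∀ π : Equiv.Perm I, ∏ x, (tt (C (b x (g0 (π x)))) * yy (g0 (π x)) : AA K ι E)
          = tt (C (∏ x, b x (g0 (π x)))) * ∏ x, yy (g0 x) := fun π => by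
        rw [Finset.prod_mul_distrib, map_prod, map_prod,
          Equiv.prod_comp π fun x => (yy (g0 x) : AA K ι E)]
      simp only [this]
      rw [← Finset.sum_mul, ← map_sum, ← map_sum]
      simp only [Matrix.permanent, Matrix.transpose_apply, Matrix.of_apply,
        Function.Embedding.coeFn_mk] at h0
      rw [h0]; simp
    · intro π _
      rw [Finset.mem_filter, Fintype.mem_piFinset]
      refine ⟨fun x => hg0.1 _, ?_⟩
      rw [← Finset.image_image, Finset.image_univ_equiv, hg0.2]
    · intro π _ π' _ e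
      exact Equiv.ext fun x => hinj (congrFun e x)
    · intro g hg
      rw [Finset.mem_filter] at hg
      have hg' : Function.Injective g := by
        have : (Finset.univ.image g).card = (Finset.univ : Finset I).card := by
          rw [hg.2, ← hg0.2, Finset.card_image_of_injective _ hinj]
        have := Finset.card_image_iff.1 this
        exact fun x y e => this (by simp) (by simp) e
      have : ∀ x, ∃ y, g0 y = g x := fun x => by
        have : g x ∈ Finset.univ.image g0 := by
          rw [hg0.2, ← hg.2]; exact Finset.mem_image_of_mem _ (Finset.mem_univ _)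
        simpa using this
      choose π hπ using this
      have hπ' : Function.Injective π := fun x y e => hg' (by rw [← hπ, ← hπ, e])
      exact ⟨Equiv.ofBijective π (Finite.injective_iff_bijective.1 hπ'), Finset.mem_univ _,
        funext hπ⟩
  · push Not at hex
    refine Finset.sum_eq_zero fun g hg => ?_
    obtain ⟨x, y, e, hxy⟩ := Function.not_injective_iff.1 (hex g hg)
    rw [Finset.prod_mul_distrib]
    refine mul_eq_zero_of_right _ (zero_dvd_iff.1 ?_)
    have := Finset.prod_dvd_prod_of_subset {x, y} Finset.univ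
      (fun x => (yy (g x) : AA K ι E)) (Finset.subset_univ _)
    rwa [Finset.prod_pair hxy, e, yy_sq] at this

theorem main_closed [IsAlgClosed K] [Fintype ι] [Fintype E] {p : ℕ} [hp : Fact p.Prime]
    [CharP K p] (a : ι → E → K) (W : Finset E)
    (h : ∀ W' ⊆ W, (2 * (p - 1) * Fintype.card ι - p + 1 : ℤ)
      ≤ (W \ W').card + 2 * (p - 1) * (rk a Finset.univ W' : ℤ))
    [DecidableEq (Fin (p - 1) × ι)] :
    ∃ f : Fin (p - 1) × ι ↪ E, (∀ y, f y ∈ W) ∧
      (Matrix.of fun x y : Fin (p - 1) × ι => a x.2 (f y)).permanent ≠ 0 := by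
  refine exists_perm (ι := ι) (fun x : Fin (p - 1) × ι => a x.2) W ?_
  rw [Fintype.prod_prod_type_right]
  simpa using sigma_ne_zero (kill_of_rk a Finset.univ W _ h)

theorem card_le_rk {m n : ℕ} (B : Fin m → Matrix (Fin n) (Fin n) K) (hB : ∀ k, (B k).det ≠ 0)
    (W : Finset (Fin m × Fin n)) :
    W.card ≤ m * rk (fun i (j : Fin m × Fin n) => B j.1 i j.2) Finset.univ W := by
  rw [Finset.card_eq_sum_card_fiberwise (f := Prod.fst) (t := Finset.univ)
    (fun _ _ => Finset.mem_univ _)]
  refine (Finset.sum_le_card_nsmul _ _ _ fun k _ => ?_).trans (by simp; exact le_rfl)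
  set s := W.filter fun j => j.1 = k with hs
  let L : (Fin m × Fin n → K) →ₗ[K] (s → K) := LinearMap.funLeft K K Subtype.val
  refine le_trans ?_ (Submodule.finrank_map_le L _)
  rw [Submodule.eq_top_iff'.2 (fun t => ?_ : ∀ t, t ∈ Submodule.map L _), finrank_top]
  · simp
  · have hu : IsUnit (B k) := (Matrix.isUnit_iff_isUnit_det _).2 (hB k).isUnit
    obtain ⟨μ, hμ⟩ := Matrix.vecMul_surjective_iff_isUnit.2 hu
      fun j => if h : (k, j) ∈ s then t ⟨_, h⟩ else 0
    refine ⟨∑ i, μ i • fun j => if j ∈ W then B j.1 i j.2 else 0,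
      Submodule.sum_mem _ fun i _ => Submodule.smul_mem _ _
        (Submodule.subset_span ⟨i, by simp, rfl⟩), funext ?_⟩
    rintro ⟨⟨k', j⟩, hj⟩
    obtain ⟨h1, h2⟩ := Finset.mem_filter.1 hj
    obtain rfl : k' = k := h2
    have := congrFun hμ j
    simp only [hj, dif_pos, Matrix.vecMul, dotProduct] at this
    simp [L, LinearMap.funLeft_apply, Finset.sum_apply, h1, this]

theorem twice_bases (F : Type*) [Field F] (p : ℕ) (hp : p.Prime) [CharP F p] (n : ℕ)
    (B : Fin (2 * p - 2) → Matrix (Fin n) (Fin n) F) (hB : ∀ k, (B k).det ≠ 0)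
    (D : Finset (Fin (2 * p - 2) × Fin n)) (hD : D.card ≤ p - 1) :
    ∃ f : Fin (p - 1) × Fin n ↪ Fin (2 * p - 2) × Fin n, (∀ y, f y ∉ D) ∧
      (Matrix.of fun x y : Fin (p - 1) × Fin n => B (f y).1 x.2 (f y).2).permanent ≠ 0 := by
  have : Fact p.Prime := ⟨hp⟩
  let φ := algebraMap F (AlgebraicClosure F)
  obtain ⟨f, h1, h2⟩ := main_closed (p := p)
    (fun i (j : Fin (2 * p - 2) × Fin n) => (B j.1).map φ i j.2) (Finset.univ \ D) (by
      intro W' hW'
      have e1 := card_le_rk (fun k => (B k).map φ) (fun k => by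
        rw [← RingHom.mapMatrix_apply, ← RingHom.map_det]
        exact (map_ne_zero φ).2 (hB k)) W'
      have e2 : ((Finset.univ \ D) \ W').card + W'.card = _ :=
        Finset.card_sdiff_add_card_eq_card hW'
      have e3 : (Finset.univ \ D).card + D.card = _ :=
        Finset.card_sdiff_add_card_eq_card (Finset.subset_univ D)
      simp only [Finset.card_univ, Fintype.card_prod, Fintype.card_fin] at e3 ⊢
      have hp2 := hp.two_le
      obtain ⟨q, rfl⟩ : ∃ q, p = q + 1 := ⟨p - 1, by omega⟩
      have e4 : ∀ n, (2 * (q + 1) - 2) * n = 2 * q * n := fun n => by congr 1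
      rw [e4] at e1 e3
      simp only [Nat.add_sub_cancel] at hD
      zify at e1 e2 e3 hD
      push_cast
      linarith)
  refine ⟨f, fun y => (Finset.mem_sdiff.1 (h1 y)).2, fun h0 => h2 ?_⟩
  have := congrArg φ h0
  simpa [Matrix.permanent, map_sum, map_prod] using this

theorem perm_lemma {F I : Type*} [Field F] [Fintype I] [DecidableEq I] (M : Matrix I I F)
    (hM : M.permanent ≠ 0) (b : I → F) : ∃ S : Finset I, ∀ i, ∑ y ∈ S, M i y ≠ b i := by
  by_contra hcon
  push Not at hcon
  let c : I → Option I → F := fun i o => o.elim (-b i) (M i)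
  let χ : Finset I → Option I → F := fun S o => o.elim 1 fun y => if y ∈ S then 1 else 0
  have h1 : ∀ S : Finset I, ∑ φ : I → Option I, (∏ i, c i (φ i)) * ∏ i, χ S (φ i) = 0 := by
    intro S
    obtain ⟨i, hi⟩ := hcon S
    have : ∏ i, ∑ o, c i o * χ S o = 0 :=
      Finset.prod_eq_zero (Finset.mem_univ i) (by simp [c, χ, hi])
    rw [Finset.prod_univ_sum] at this
    simpa [Finset.prod_mul_distrib] using this
  have h2 : ∀ φ : I → Option I, ∑ S : Finset I, (-1 : F) ^ S.card * ∏ i, χ S (φ i)
      = if ∀ y, ∃ i, φ i = some y then (-1) ^ Fintype.card I else 0 := by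
    intro φ
    have e1 := Finset.prod_add (fun _ : I => (-1 : F))
      (fun y => if ∃ i, φ i = some y then 0 else 1) Finset.univ
    rw [Finset.powerset_univ] at e1
    have e2 : ∀ S : Finset I, ∏ y ∈ Finset.univ \ S, (if ∃ i, φ i = some y then (0 : F) else 1)
        = ∏ i, χ S (φ i) := by
      intro S
      by_cases h : ∃ i y, φ i = some y ∧ y ∉ S
      · obtain ⟨i, y, h1, h2⟩ := h
        have q1 : y ∈ Finset.univ \ S := by simp [h2]
        have q2 : χ S (φ i) = 0 := by simp [χ, h1, h2]
        rw [Finset.prod_eq_zero (f := fun i => χ S (φ i)) (Finset.mem_univ i) q2]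
        exact Finset.prod_eq_zero q1 (if_pos ⟨i, h1⟩)
      · push Not at h
        rw [Finset.prod_eq_one, Finset.prod_eq_one]
        · intro i _
          rcases e : φ i with _ | y
          · rfl
          · simp [χ, h i y e]
        · intro y hy
          exact if_neg fun ⟨i, e⟩ => (Finset.mem_sdiff.1 hy).2 (h i y e)
    simp only [e2, Finset.prod_const] at e1
    rw [← e1]
    split_ifs with h
    · simp [h]
    · push Not at h
      obtain ⟨y, hy⟩ := h
      exact Finset.prod_eq_zero (Finset.mem_univ y) (by simp [hy])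
  have h3 : ∑ φ : I → Option I, (∏ i, c i (φ i))
      * ∑ S : Finset I, (-1 : F) ^ S.card * ∏ i, χ S (φ i) = 0 := by
    simp only [Finset.mul_sum]
    rw [Finset.sum_comm]
    refine Finset.sum_eq_zero fun S _ => ?_
    simp only [mul_left_comm _ ((-1 : F) ^ S.card)]
    rw [← Finset.mul_sum, h1, mul_zero]
  simp only [h2, mul_ite, mul_zero] at h3
  rw [← Finset.sum_filter, ← Finset.sum_mul, mul_eq_zero, or_iff_left (by simp)] at h3
  apply hM
  rw [← Matrix.permanent_transpose, ← h3]
  refine Finset.sum_bij (fun π _ => some ∘ π) (fun π _ => ?_) (fun π _ π' _ e => ?_)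
    (fun φ hφ => ?_) fun π _ => by simp [c]
  · simp only [Finset.mem_filter, Finset.mem_univ, true_and]
    exact fun y => ⟨π.symm y, by simp⟩
  · exact Equiv.ext fun x => Option.some_injective _ (congrFun e x)
  · choose ψ hψ using (Finset.mem_filter.1 hφ).2
    have hi : Function.Injective ψ := fun x y e => Option.some_injective _ (by rw [← hψ, e, hψ])
    refine ⟨(Equiv.ofBijective ψ (Finite.injective_iff_bijective.1 hi)).symm, Finset.mem_univ _,
      funext fun i => ?_⟩
    rw [Function.comp_apply, ← hψ]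
    exact congrArg φ (Equiv.ofBijective_apply_symm_apply ψ _ i)

theorem additive_basis (p : ℕ) (hp : p.Prime) (n : ℕ)
    (B : Fin (2 * p - 2) → Matrix (Fin n) (Fin n) (ZMod p)) (hB : ∀ k, IsUnit (B k).det)
    (D : Finset (Fin (2 * p - 2) × Fin n)) (hD : D.card ≤ p - 1) (v : Fin n → ZMod p) :
    ∃ S : Finset (Fin (2 * p - 2) × Fin n), Disjoint S D ∧ S.card ≤ (p - 1) * n ∧
      ∀ r, ∑ e ∈ S, B e.1 r e.2 = v r := by
  have : Fact p.Prime := ⟨hp⟩
  obtain ⟨f, h1, h2⟩ := twice_bases (ZMod p) p hp n B (fun k => (hB k).ne_zero) D hD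
  obtain ⟨S, hS⟩ := perm_lemma _ h2 fun x => v x.2 + ((x.1 + 1 : ℕ) : ZMod p)
  refine ⟨S.map f, ?_, ?_, fun r => ?_⟩
  · rw [Finset.disjoint_left]
    intro e he
    obtain ⟨y, _, rfl⟩ := Finset.mem_map.1 he
    exact h1 y
  · simpa using Finset.card_le_univ S
  · rw [Finset.sum_map]
    by_contra hne
    have h0 : (∑ y ∈ S, B (f y).1 r (f y).2 - v r).val ≠ 0 := by
      rw [Ne, ZMod.val_eq_zero, sub_eq_zero]; exact hne
    have h3 := ZMod.val_lt (∑ y ∈ S, B (f y).1 r (f y).2 - v r)
    refine hS (⟨(∑ y ∈ S, B (f y).1 r (f y).2 - v r).val - 1, by omega⟩, r) ?_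
    simp only [Matrix.of_apply]
    rw [Nat.sub_add_cancel (by omega), ZMod.natCast_zmod_val]
    ring

end

end Pool.Agent.MP_16de82_co.h72
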