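import Mathlib.Topology.Sheaves.Presheaf
import Mathlib.Data.Int.Star
import Mathlib.Algebra.Order.Star.Real
import Mathlib.Analysis.Convex.KreinMilman
import Mathlib.Analysis.Matrix.PosDef
import Mathlib.RingTheory.PiTensorProduct
import Mathlib.Tactic.Algebra.Basic

set_option autoImplicit false

open Matrix Finset

namespace Pool.Agent.MP_16de82_co.h72

section Scale

variable {n : ℕ} {E : Type} [Fintype E] [DecidableEq E]

/-- weighted Gram matrix of the columns in `S` -/
def gram (a : E → Fin n → ℝ) (c : E → ℝ) (S : Finset E) : Matrix (Fin n) (Fin n) ℝ :=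
  ∑ e ∈ S, c e • vecMulVec (a e) (a e)

theorem det_upd {L : Matrix (Fin n) (Fin n) ℝ} (hL : L.PosDef) (t : ℝ) (v : Fin n → ℝ) :
    (L + t • vecMulVec v v).det = L.det * (1 + t * (v ⬝ᵥ L⁻¹ *ᵥ v)) := by
  rw [← smul_vecMulVec, vecMulVec_eq Unit,
    det_add_replicateCol_mul_replicateRow (isUnit_iff_ne_zero.2 hL.det_pos.ne'),
    det_unique (n := Unit)]
  congr 1
  simp [Matrix.mul_apply, dotProduct, mulVec, sum_mul, mul_sum]
  rw [sum_comm]
  exact sum_congr rfl fun i _ => sum_congr rfl fun j _ => by ring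

omit [Fintype E] in
theorem gram_mono (a : E → Fin n → ℝ) {c : E → ℝ} (hc : ∀ e, 0 < c e) {S : Finset E}
    (hS : (gram a c S).PosDef) (T : Finset E) :
    (gram a c (T ∪ S)).PosDef ∧ (gram a c S).det ≤ (gram a c (T ∪ S)).det := by
  induction T using Finset.induction_on with
  | empty => simpa using hS
  | insert e T _ ih =>
    rw [insert_union]
    by_cases h : e ∈ T ∪ S
    · rwa [insert_eq_of_mem h]
    have e1 : gram a c (insert e (T ∪ S)) = gram a c (T ∪ S) + c e • vecMulVec (a e) (a e) := by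
      rw [gram, sum_insert h, add_comm]; rfl
    have h1 : (vecMulVec (a e) (a e)).PosSemidef := by
      simpa using posSemidef_vecMulVec_self_star (a e)
    rw [e1]
    refine ⟨ih.1.add_posSemidef (h1.smul (hc e).le), ih.2.trans ?_⟩
    rw [det_upd ih.1]
    have h2 : 0 ≤ a e ⬝ᵥ (gram a c (T ∪ S))⁻¹ *ᵥ a e := by
      simpa using ih.1.inv.posSemidef.dotProduct_mulVec_nonneg (a e)
    have := ih.1.det_pos
    nlinarith [mul_nonneg (hc e).le h2]

variable {k : ℕ}

theorem gram_block (B : Fin k → Matrix (Fin n) (Fin n) ℝ) (hB : ∀ i, 1 ≤ (B i).det ^ 2)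
    {c : Fin k × Fin n → ℝ} (hc : ∀ e, 0 < c e) (i : Fin k) :
    (gram (fun e r => B e.1 r e.2) c univ).PosDef ∧
      ∏ j, c (i, j) ≤ (gram (fun e r => B e.1 r e.2) c univ).det := by
  have e1 : gram (fun e r => B e.1 r e.2) c (univ.image fun j => (i, j)) =
      B i * diagonal (fun j => c (i, j)) * (B i)ᴴ := by
    rw [gram, sum_image (fun x _ y _ h => (Prod.ext_iff.1 h).2)]
    ext r s
    simp [Matrix.sum_apply, vecMulVec_apply, Matrix.mul_apply, diagonal]
    exact sum_congr rfl fun j _ => by ring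
  have hu : IsUnit (B i) := (isUnit_iff_isUnit_det _).2 (isUnit_iff_ne_zero.2 fun h => by
    have := hB i; rw [h] at this; norm_num at this)
  have h1 : (gram (fun e r => B e.1 r e.2) c (univ.image fun j => (i, j))).PosDef := by
    rw [e1]
    exact (PosDef.diagonal fun j => hc _).mul_mul_conjTranspose_same
      (vecMul_injective_iff_isUnit.2 hu)
  have h2 := gram_mono _ hc h1 univ
  rw [union_eq_left.2 (subset_univ _)] at h2
  refine ⟨h2.1, le_trans ?_ h2.2⟩
  rw [e1, det_mul, det_mul, det_diagonal, det_conjTranspose, star_trivial]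
  have : 0 < ∏ j, c (i, j) := prod_pos fun j _ => hc _
  nlinarith [hB i]

/-- weights whose leverage scores are all close to `1 / k` -/
theorem exists_scale (hk : 0 < k) (B : Fin k → Matrix (Fin n) (Fin n) ℝ)
    (hB : ∀ i, 1 ≤ (B i).det ^ 2) {η : ℝ} (hη : 0 < η) :
    ∃ c : Fin k × Fin n → ℝ, (∀ e, 0 < c e) ∧ ∀ e, k * (c e * ((fun r => B e.1 r e.2) ⬝ᵥ
      (gram (fun e r => B e.1 r e.2) c univ)⁻¹ *ᵥ fun r => B e.1 r e.2)) ≤ 1 + η := by
  set a : Fin k × Fin n → Fin n → ℝ := fun e r => B e.1 r e.2 with ha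
  let g : {c : Fin k × Fin n → ℝ // ∀ e, 0 < c e} → ℝ := fun c =>
    (gram a c.1 univ).det ^ k / ∏ e, c.1 e
  have hg : ∀ c, 1 ≤ g c := fun c => by
    rw [one_le_div (prod_pos fun e _ => c.2 e), Fintype.prod_prod_type]
    refine (prod_le_prod (fun i _ => (prod_pos fun j _ => c.2 _).le)
      fun i _ => (gram_block B hB c.2 i).2).trans_eq (by simp [ha])
  set h := η / 2 with hh
  have h0 : 0 < h := by positivity
  set q := Real.exp (h - h * (1 + η) / (1 + h)) with hq
  have hq1 : q < 1 := Real.exp_lt_one_iff.2 (by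
    rw [sub_neg, lt_div_iff₀ (by positivity)]; nlinarith)
  have hq0 : 0 < q := Real.exp_pos _
  have : Nonempty {c : Fin k × Fin n → ℝ // ∀ e, 0 < c e} := ⟨⟨fun _ => 1, fun _ => one_pos⟩⟩
  have hb : BddBelow (Set.range g) := ⟨1, by rintro _ ⟨c, rfl⟩; exact hg c⟩
  have hi : 1 ≤ iInf g := le_ciInf hg
  obtain ⟨c, hc⟩ := exists_lt_of_ciInf_lt (f := g) (a := iInf g / q)
    (by rw [lt_div_iff₀ hq0]; nlinarith)
  refine ⟨c.1, c.2, fun e => le_of_not_gt fun hlt => ?_⟩
  set ρ := c.1 e * (a e ⬝ᵥ (gram a c.1 univ)⁻¹ *ᵥ a e) with hρ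
  let c' : {c : Fin k × Fin n → ℝ // ∀ e, 0 < c e} := ⟨Function.update c.1 e (c.1 e / (1 + h)),
    fun f => by
      rcases eq_or_ne f e with rfl | hf
      · have := c.2 f; simp; positivity
      · simpa [hf] using c.2 f⟩
  have hP := (gram_block B hB c.2 ⟨0, hk⟩).1
  have e1 : gram a c'.1 univ = gram a c.1 univ + (-(h / (1 + h)) * c.1 e) • vecMulVec (a e) (a e) := by
    rw [gram, gram, ← add_sum_erase _ _ (mem_univ e), ← add_sum_erase _ _ (mem_univ e),
      add_right_comm, ← add_smul]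
    congr 1
    · simp only [c', Function.update_self]; congr 1; field_simp; ring
    · exact sum_congr rfl fun f hf => by simp [c', ne_of_mem_erase hf]
  have e2 : ∏ f, c'.1 f = (∏ f, c.1 f) / (1 + h) := by
    rw [← mul_prod_erase _ _ (mem_univ e), ← mul_prod_erase _ c.1 (mem_univ e),
      prod_congr rfl fun f hf => (by simp [c', ne_of_mem_erase hf] : c'.1 f = c.1 f)]
    simp only [c', Function.update_self]; ring
  have e3 : (gram a c'.1 univ).det = (gram a c.1 univ).det * (1 - h / (1 + h) * ρ) := by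
    rw [e1, det_upd hP, hρ]; ring
  have h3 : 0 < 1 - h / (1 + h) * ρ := (mul_pos_iff_of_pos_left hP.det_pos).1
    (e3 ▸ (gram_block B hB c'.2 ⟨0, hk⟩).1.det_pos)
  have h4 : (1 - h / (1 + h) * ρ) ^ k * (1 + h) ≤ q := by
    calc _ ≤ Real.exp (-(h / (1 + h) * ρ)) ^ k * Real.exp h := by
          gcongr
          · linarith [Real.add_one_le_exp (-(h / (1 + h) * ρ))]
          · linarith [Real.add_one_le_exp h]
      _ ≤ q := by
          rw [← Real.exp_nat_mul, ← Real.exp_add]
          refine Real.exp_le_exp.2 ?_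
          have : h * (1 + η) / (1 + h) ≤ h / (1 + h) * (k * ρ) := by
            rw [mul_div_right_comm]; gcongr
          linarith
  have h5 : g c' = g c * ((1 - h / (1 + h) * ρ) ^ k * (1 + h)) := by
    simp only [g]; rw [e2, e3, mul_pow]; field_simp
  have h6 := ciInf_le hb c'
  rw [lt_div_iff₀ hq0] at hc
  nlinarith [hg c]

/-- the zonotope of `k` lattice bases, shrunk by `k`, nearly meets every coset of the lattice -/
theorem exists_near (hk : 0 < k) (B : Fin k → Matrix (Fin n) (Fin n) ℤ)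
    (hB : ∀ i, (B i).det ≠ 0) (x₀ : Fin n → ℝ) {η : ℝ} (hη : 0 < η) :
    ∃ (y : Fin k × Fin n → ℝ) (z : Fin n → ℤ), (∀ e, |y e| ≤ 1 / 2 + η) ∧
      ∀ r, ∑ e, y e * B e.1 r e.2 = x₀ r + k * z r := by
  let B' : Fin k → Matrix (Fin n) (Fin n) ℝ := fun i => (B i).map (Int.castRingHom ℝ)
  have hB' : ∀ i, 1 ≤ (B' i).det ^ 2 := fun i => by
    have : (B' i).det = ((B i).det : ℝ) := ((Int.castRingHom ℝ).map_det _).symm
    rw [this]
    exact_mod_cast (one_le_sq_iff_one_le_abs _).2 (Int.one_le_abs (hB i))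
  obtain ⟨c, hc, hρ⟩ := exists_scale hk B' hB' hη
  set a : Fin k × Fin n → Fin n → ℝ := fun e r => B' e.1 r e.2 with ha
  have hP := (gram_block B' hB' hc ⟨0, hk⟩).1
  set L := gram a c univ with hL
  have hsym : ∀ u v, u ⬝ᵥ L⁻¹ *ᵥ v = v ⬝ᵥ L⁻¹ *ᵥ u := fun u v => by
    rw [dotProduct_mulVec, dotProduct_comm, ← mulVec_transpose]
    have := hP.inv.isHermitian.eq
    rw [conjTranspose_eq_transpose_of_trivial] at this
    rw [this]
  let x : (Fin n → ℤ) → Fin n → ℝ := fun z r => x₀ r + k * z r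
  let Q : (Fin n → ℤ) → ℝ := fun z => x z ⬝ᵥ L⁻¹ *ᵥ x z
  have hQ : BddBelow (Set.range Q) := ⟨0, by
    rintro _ ⟨z, rfl⟩
    simpa using hP.inv.posSemidef.dotProduct_mulVec_nonneg (x z)⟩
  have hk' : (1 : ℝ) ≤ k := by exact_mod_cast hk
  have hC : 0 < 1 + ∑ e, c e := by have := sum_nonneg (s := univ) fun e _ => (hc e).le; linarith
  obtain ⟨z, hz⟩ := exists_lt_of_ciInf_lt (f := Q) (a := iInf Q + η / (1 + ∑ e, c e))
    (lt_add_of_pos_right _ (by positivity))
  refine ⟨fun e => c e * (a e ⬝ᵥ L⁻¹ *ᵥ x z), z, fun e => ?_, fun r => ?_⟩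
  · have key : ∀ s : ℤ, s ^ 2 = 1 → s * (c e * (a e ⬝ᵥ L⁻¹ *ᵥ x z)) ≤ 1 / 2 + η := by
      intro s hs
      have h1 := ciInf_le hQ (z - fun r => s * B e.1 r e.2)
      have e1 : x (z - fun r => s * B e.1 r e.2) = x z - ((k : ℝ) * s) • a e := by
        ext r; simp [x, ha, B']; ring
      have hs' : (s : ℝ) ^ 2 = 1 := by exact_mod_cast hs
      simp only [Q] at h1 hz
      rw [e1, mulVec_sub, mulVec_smul, sub_dotProduct, dotProduct_sub, dotProduct_sub,
        smul_dotProduct, smul_dotProduct, dotProduct_smul, dotProduct_smul, hsym (x z) (a e)] at h1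
      simp only [smul_eq_mul] at h1
      have h2 := hρ e
      have h3 : c e * (η / (1 + ∑ e, c e)) ≤ η := by
        rw [mul_div_assoc', div_le_iff₀ hC]
        nlinarith [single_le_sum (f := c) (fun e _ => (hc e).le) (mem_univ e)]
      set u := a e ⬝ᵥ L⁻¹ *ᵥ x z
      set R := a e ⬝ᵥ L⁻¹ *ᵥ a e
      have h4 : 2 * k * (s * u) ≤ k * k * R + η / (1 + ∑ e, c e) := by
        have : (k : ℝ) * s * (k * s * R) = k * k * R := by linear_combination (k * k * R) * hs'
        linarith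
      have h5 := mul_le_mul_of_nonneg_left h4 (hc e).le
      have h6 : k * (2 * (s * (c e * u))) ≤ k * (1 + 2 * η) := by nlinarith
      linarith [le_of_mul_le_mul_left h6 (by linarith)]
    have := key 1 (by norm_num)
    have := key (-1) (by norm_num)
    rw [abs_le]; constructor <;> push_cast at * <;> linarith
  · have h1 : L *ᵥ (L⁻¹ *ᵥ x z) = x z := by
      rw [mulVec_mulVec, mul_nonsing_inv _ (isUnit_iff_ne_zero.2 hP.det_pos.ne'), one_mulVec]
    refine Eq.trans ?_ (congrFun h1 r)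
    rw [hL, gram, sum_mulVec, Finset.sum_apply]
    refine sum_congr rfl fun e _ => ?_
    rw [smul_mulVec, vecMulVec_mulVec]
    simp [ha, B']; ring

theorem exists_exact (hk : 0 < k) (B : Fin k → Matrix (Fin n) (Fin n) ℤ)
    (hB : ∀ i, (B i).det ≠ 0) (x₀ : Fin n → ℝ) :
    ∃ (y : Fin k × Fin n → ℝ) (z : Fin n → ℤ), (∀ e, |y e| ≤ 1 / 2) ∧
      ∀ r, ∑ e, y e * B e.1 r e.2 = x₀ r + k * z r := by
  have hk' : (0 : ℝ) < k := by exact_mod_cast hk
  let K : Set (Fin k × Fin n → ℝ) := Metric.closedBall 0 2 ∩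
    ⋂ r, (fun y => (∑ e, y e * B e.1 r e.2 - x₀ r) / k) ⁻¹' Set.range ((↑) : ℤ → ℝ)
  have hK : IsCompact K := (isCompact_closedBall _ _).inter_right (isClosed_iInter fun r =>
    Int.isClosedEmbedding_coe_real.isClosed_range.preimage (by fun_prop))
  have hm : ∀ η, 0 < η → η ≤ 1 → ∃ y ∈ K, ‖y‖ ≤ 1 / 2 + η := fun η h1 h2 => by
    obtain ⟨y, z, h3, h4⟩ := exists_near hk B hB x₀ h1
    have h5 : ‖y‖ ≤ 1 / 2 + η := (pi_norm_le_iff_of_nonneg (by linarith)).2 h3
    refine ⟨y, ⟨mem_closedBall_zero_iff.2 (by linarith), Set.mem_iInter.2 fun r => ⟨z r, ?_⟩⟩, h5⟩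
    simp only [h4]; field_simp; ring
  obtain ⟨y, hy, h⟩ := hK.exists_isMinOn (f := fun y => ‖y‖)
    (by obtain ⟨y, hy, -⟩ := hm 1 one_pos le_rfl; exact ⟨y, hy⟩) (by fun_prop)
  have h1 : ‖y‖ ≤ 1 / 2 := le_of_forall_pos_le_add fun η hη => by
    obtain ⟨y', h2, h3⟩ := hm (min η 1) (by positivity) (min_le_right _ _)
    linarith [show ‖y‖ ≤ ‖y'‖ from h h2, min_le_left η 1]
  choose z hz using Set.mem_iInter.1 hy.2
  refine ⟨y, z, fun e => (norm_le_pi_norm y e).trans h1, fun r => ?_⟩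
  rw [hz r]; field_simp; ring

end Scale

section Round

variable {n : ℕ} {E : Type} [Fintype E] [DecidableEq E]

/-- integrality of boxes cut by a unimodular system -/
theorem round (a : E → Fin n → ℤ)
    (hu : ∀ f : Fin n → E, |(Matrix.of fun r j => a (f j) r).det| ≤ 1)
    (hsp : ⊤ ≤ Submodule.span ℝ (Set.range fun e r => (a e r : ℝ))) (l u : E → ℤ) (g : E → ℝ)
    (s : Fin n → ℤ) (y : E → ℝ) (hy : ∀ e, l e ≤ y e ∧ y e ≤ u e)
    (hs : ∀ r, ∑ e, y e * a e r = s r) :
    ∃ z : E → ℤ, (∀ e, l e ≤ z e ∧ z e ≤ u e) ∧ (∀ r, ∑ e, z e * a e r = s r) ∧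
      ∑ e, g e * z e ≤ ∑ e, g e * y e := by
  classical
  set v : E → Fin n → ℝ := fun e r => a e r with hv
  let P : Set (E → ℝ) := Set.Icc (fun e => (l e : ℝ)) (fun e => u e) ∩
    ⋂ r, {y | ∑ e, y e * v e r = s r}
  have hP : IsCompact P := isCompact_Icc.inter_right (isClosed_iInter fun r =>
    isClosed_eq (by fun_prop) continuous_const)
  have hyP : y ∈ P := ⟨⟨fun e => (hy e).1, fun e => (hy e).2⟩, Set.mem_iInter.2 hs⟩
  obtain ⟨m, hm, hmin⟩ := hP.exists_isMinOn (f := fun y => ∑ e, g e * y e) ⟨y, hyP⟩ (by fun_prop)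
  have hP' : IsCompact (P ∩ {y | ∑ e, g e * y e = ∑ e, g e * m e}) :=
    hP.inter_right (isClosed_eq (by fun_prop) continuous_const)
  obtain ⟨w, ⟨hw, hwm⟩, hext⟩ := hP'.extremePoints_nonempty ⟨m, hm, rfl⟩
  have hli : LinearIndepOn ℝ v {e | (l e : ℝ) < w e ∧ w e < u e} := by
    rw [linearIndepOn_iff'']
    intro t κ ht h0 hκ
    have hev : ∀ᶠ ε in nhds (0 : ℝ), ∀ e, (l e : ℝ) ≤ w e + ε * κ e ∧ w e + ε * κ e ≤ u e := by
      refine Filter.eventually_all.2 fun e => ?_
      by_cases he : e ∈ t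
      · have hc : Filter.Tendsto (fun ε : ℝ => w e + ε * κ e) (nhds 0) (nhds (w e)) :=
          Continuous.tendsto' (by fun_prop) _ _ (by simp)
        exact (hc.eventually_const_le (ht he).1).and (hc.eventually_le_const (ht he).2)
      · exact Filter.Eventually.of_forall fun ε => by simpa [h0 e he] using ⟨hw.1.1 e, hw.1.2 e⟩
    obtain ⟨δ, hδ, hball⟩ := Metric.eventually_nhds_iff.1 hev
    have hmem : ∀ ε : ℝ, |ε| < δ → w + ε • κ ∈ P := fun ε hε => by
      have := hball (y := ε) (by simpa using hε)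
      refine ⟨⟨fun e => (this e).1, fun e => (this e).2⟩, Set.mem_iInter.2 fun r => ?_⟩
      have h1 : ∑ e, κ e * v e r = 0 := by
        have := congrFun hκ r
        simp only [Finset.sum_apply, Pi.smul_apply, smul_eq_mul, Pi.zero_apply] at this
        rw [← this]
        exact (sum_subset (subset_univ t) fun e _ he => by simp [h0 e he]).symm
      have h2 : ∑ e, w e * v e r = s r := Set.mem_iInter.1 hw.2 r
      simp only [Set.mem_ofPred_eq, Pi.add_apply, Pi.smul_apply, smul_eq_mul, add_mul, mul_assoc,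
        sum_add_distrib, ← mul_sum, h1, h2, mul_zero, add_zero]
    have hval : ∀ ε : ℝ, ∑ e, g e * (w + ε • κ) e = ∑ e, g e * m e + ε * ∑ e, g e * κ e := by
      intro ε
      rw [← show ∑ e, g e * w e = _ from hwm, mul_sum, ← sum_add_distrib]
      exact sum_congr rfl fun e _ => by simp; ring
    have p1 := hmem (δ / 2) (by rw [abs_of_pos] <;> linarith)
    have p2 := hmem (-(δ / 2)) (by rw [abs_neg, abs_of_pos] <;> linarith)
    have q1 : ∑ e, g e * m e ≤ ∑ e, g e * (w + (δ / 2) • κ) e := hmin p1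
    have q2 : ∑ e, g e * m e ≤ ∑ e, g e * (w + (-(δ / 2)) • κ) e := hmin p2
    rw [hval] at q1 q2
    have q3 : ∑ e, g e * κ e = 0 := by nlinarith
    have := hext ⟨p1, by simp only [Set.mem_ofPred_eq, hval, q3, mul_zero, add_zero]⟩
      ⟨p2, by simp only [Set.mem_ofPred_eq, hval, q3, mul_zero, add_zero]⟩
      ⟨1 / 2, 1 / 2, by norm_num, by norm_num, by norm_num, by module⟩
    intro e _
    have h3 := congrFun this e
    simp only [Pi.add_apply, Pi.smul_apply, smul_eq_mul, add_eq_left] at h3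
    exact (mul_eq_zero.1 h3).resolve_left (by linarith)
  obtain ⟨b, -, hFb, hb1, hb2⟩ := exists_linearIndepOn_extension hli (Set.subset_univ _)
  have hb3 : ⊤ ≤ Submodule.span ℝ (Set.range fun e : b => v e) := by
    refine hsp.trans (Submodule.span_le.2 ?_)
    rwa [← Set.image_eq_range, ← Set.image_univ]
  have hcard : Fintype.card (Fin n) = Fintype.card b := by
    rw [← Module.finrank_eq_card_basis (Module.Basis.mk hb2 hb3)]; simp
  let f := Fintype.equivOfCardEq hcard
  set C : Matrix (Fin n) (Fin n) ℤ := Matrix.of fun r j => a (f j) r with hC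
  have hdet : C.det ≠ 0 := fun h => by
    have h1 : LinearIndependent ℝ (C.map (Int.castRingHom ℝ)).col := hb2.comp f f.injective
    have h2 := (isUnit_iff_isUnit_det _).1 (linearIndependent_cols_iff_isUnit.1 h1)
    rw [← RingHom.mapMatrix_apply, ← RingHom.map_det, h] at h2
    simp at h2
  have hun : IsUnit C.det := Int.isUnit_iff_abs_eq.2 (le_antisymm (hu _) (Int.one_le_abs hdet))
  have hout : ∀ e, ∃ z : ℤ, e ∉ b → (z : ℝ) = w e := fun e => by
    by_cases h : (l e : ℝ) < w e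
    · exact ⟨u e, fun he => le_antisymm (not_lt.1 fun h' => he (hFb ⟨h, h'⟩)) (hw.1.2 e)⟩
    · exact ⟨l e, fun _ => le_antisymm (hw.1.1 e) (not_lt.1 h)⟩
  choose z₀ hz₀ using hout
  let t : Fin n → ℤ := fun r => s r - ∑ e ∈ univ.filter (· ∉ b), z₀ e * a e r
  have h1 : C.map (Int.castRingHom ℝ) *ᵥ (fun j => w (f j)) = fun r => (t r : ℝ) := by
    ext r
    have h2 : ∑ e, w e * v e r = s r := Set.mem_iInter.1 hw.2 r
    rw [← sum_filter_add_sum_filter_not univ (· ∈ b), sum_subtype (p := (· ∈ b)) _ (by simp),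
      ← f.sum_comp, sum_congr rfl fun e he => (by rw [hz₀ e (mem_filter.1 he).2] :
        w e * v e r = z₀ e * v e r)] at h2
    simp only [t, mulVec, dotProduct, map_apply, hC, of_apply, eq_intCast]
    push_cast
    rw [← h2, add_sub_cancel_right]
    exact sum_congr rfl fun j _ => mul_comm _ _
  have h2 : ∀ j, w (f j) = ((C⁻¹ *ᵥ t) j : ℝ) := fun j => by
    have h3 : C⁻¹.map (Int.castRingHom ℝ) * C.map (Int.castRingHom ℝ) = 1 := by
      rw [← Matrix.map_mul, nonsing_inv_mul _ hun]; simp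
    have h4 := congrArg (C⁻¹.map (Int.castRingHom ℝ) *ᵥ ·) h1
    simp only [mulVec_mulVec, h3, one_mulVec] at h4
    rw [congrFun h4 j]
    simp [mulVec, dotProduct]
  have hint : ∀ e, ∃ z : ℤ, (z : ℝ) = w e := fun e => by
    by_cases h : e ∈ b
    · exact ⟨_, by simpa using (h2 (f.symm ⟨e, h⟩)).symm⟩
    · exact ⟨_, hz₀ e h⟩
  choose z hz using hint
  refine ⟨z, fun e => ⟨?_, ?_⟩, fun r => ?_, ?_⟩
  · exact Int.cast_le.1 ((hw.1.1 e).trans_eq (hz e).symm : (l e : ℝ) ≤ z e)
  · exact Int.cast_le.1 ((hz e).trans_le (hw.1.2 e) : (z e : ℝ) ≤ u e)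
  · have h3 : ∑ e, w e * v e r = s r := Set.mem_iInter.1 hw.2 r
    simp only [← hz, hv] at h3
    exact_mod_cast h3
  · simp only [hz]
    exact (show ∑ e, g e * w e = _ from hwm).trans_le (hmin hyP)

end Round

/-- `k` bases inside a unimodular system, one column removed, form an additive basis mod `k` -/
theorem unimod (k n : ℕ) (hk : 0 < k) (B : Fin k → Matrix (Fin n) (Fin n) ℤ)
    (hB : ∀ i, (B i).det ≠ 0)
    (hu : ∀ f : Fin n → Fin k × Fin n, |(Matrix.of fun r j => B (f j).1 r (f j).2).det| ≤ 1)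
    (d : Fin k × Fin n) (b : Fin n → ℤ) :
    ∃ S : Finset (Fin k × Fin n), d ∉ S ∧ ∀ r, ∑ e ∈ S, B e.1 r e.2 ≡ b r [ZMOD k] := by
  obtain ⟨y, z, hy, hz⟩ := exists_exact hk B hB
    fun r => b r - ∑ e, (if e = d then 0 else 1 / 2 : ℝ) * B e.1 r e.2
  have hsp : ⊤ ≤ Submodule.span ℝ
      (Set.range fun (e : Fin k × Fin n) r => (B e.1 r e.2 : ℝ)) := by
    have h1 : IsUnit ((B d.1).map (Int.castRingHom ℝ)) := (isUnit_iff_isUnit_det _).2 (by
      rw [← RingHom.mapMatrix_apply, ← RingHom.map_det]; simpa using hB d.1)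
    have : Nonempty (Fin n) := ⟨d.2⟩
    rw [← (linearIndependent_cols_iff_isUnit.2 h1).span_eq_top_of_card_eq_finrank (by simp)]
    exact Submodule.span_mono (by rintro _ ⟨j, rfl⟩; exact ⟨(d.1, j), rfl⟩)
  have hg : ∀ (c : ℝ) (w : Fin k × Fin n → ℝ),
      ∑ e, (if e = d then c else 0) * w e = c * w d := fun c w => by simp
  have main : ∀ σ : ℤ, (σ = 1 ∨ σ = -1) → 0 ≤ σ * y d →
      ∃ S : Finset (Fin k × Fin n), d ∉ S ∧ ∀ r, ∑ e ∈ S, B e.1 r e.2 ≡ b r [ZMOD k] := by
    intro σ hσ h0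
    obtain ⟨w, h1, h2, h3⟩ := round (E := Fin k × Fin n) (fun e r => B e.1 r e.2) hu hsp
      (fun e => if e = d then min σ 0 else 0) (fun e => if e = d then max σ 0 else 1)
      (fun e => if e = d then (σ : ℝ) else 0) (fun r => b r + k * z r)
      (fun e => y e + if e = d then 0 else 1 / 2) (fun e => by
        have := abs_le.1 (hy e)
        by_cases h : e = d
        · subst h; rcases hσ with rfl | rfl <;> norm_num at h0 ⊢ <;> constructor <;> linarith
        · simp only [h, if_false]; push_cast; constructor <;> linarith)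
      (fun r => by simp only [add_mul, sum_add_distrib, hz]; push_cast; ring)
    rw [hg, hg] at h3
    have h4 : w d = 0 := by
      have a1 := h1 d
      have a2 := abs_le.1 (hy d)
      rcases hσ with rfl | rfl <;> norm_num at a1 h3
      · have : (w d : ℝ) < 1 := by linarith
        have : w d < 1 := by exact_mod_cast this
        omega
      · have : (-1 : ℝ) < w d := by linarith
        have : -1 < w d := by exact_mod_cast this
        omega
    refine ⟨univ.filter fun e => w e = 1, by simp [h4], fun r => ?_⟩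
    have h5 : ∑ e ∈ univ.filter fun e => w e = 1, B e.1 r e.2 = b r + k * z r := by
      rw [← h2 r, sum_filter]
      refine sum_congr rfl fun e _ => ?_
      by_cases h : e = d
      · simp [h, h4]
      · have := h1 e
        simp only [h, if_false] at this
        split_ifs with h'
        · rw [h', one_mul]
        · rw [show w e = 0 by omega, zero_mul]
    rw [h5]
    exact Int.modEq_iff_dvd.2 ⟨-z r, by ring⟩
  rcases le_total 0 (y d) with h | h
  · exact main 1 (Or.inl rfl) (by simpa using h)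
  · exact main (-1) (Or.inr rfl) (by simpa using h)

end Pool.Agent.MP_16de82_co.h72
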